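import Pool.Agent.X32.Cls.Ord

/-! Imaginary quadratic subfields of `ℂ`. -/

set_option autoImplicit false

namespace Pool.Agent.X32.Cls

open NumberField IntermediateField Polynomial

/-- the field generated by the square root of `-D` -/
noncomputable def fld (D : ℕ) : IntermediateField ℚ ℂ :=
  IntermediateField.adjoin ℚ {Complex.I * (Real.sqrt D : ℂ)}

theorem gen_sq (D : ℕ) : (Complex.I * (Real.sqrt D : ℂ)) ^ 2 = -(D : ℂ) := by
  rw [mul_pow, Complex.I_sq, ← Complex.ofReal_pow, Real.sq_sqrt (by positivity)]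
  push_cast
  ring

theorem fld_spec {D : ℕ} (hsf : Squarefree D) (h3 : D % 4 = 3) :
    ∃ _ : NumberField (fld D), Module.finrank ℚ (fld D) = 2 ∧ (∃ x : fld D, (x : ℂ).im ≠ 0) ∧
      discr (fld D) = -(D : ℤ) := by
  have hD : 0 < D := by omega
  obtain ⟨y, hy⟩ : ∃ y : ℂ, y = Complex.I * (Real.sqrt D : ℂ) := ⟨_, rfl⟩
  have hy2 : y ^ 2 = -(D : ℂ) := by rw [hy]; exact gen_sq D
  have hn' : ∀ b : ℚ, b ^ 2 ≠ (-(D : ℚ)) := by
    intro b hb
    have : (0 : ℚ) < D := by exact_mod_cast hD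
    nlinarith [sq_nonneg b]
  have hirr := X_pow_sub_C_irreducible_of_prime Nat.prime_two hn'
  have hroot : aeval y (X ^ 2 - C (-(D : ℚ))) = 0 := by simp [hy2]
  have hmin : minpoly ℚ y = X ^ 2 - C (-(D : ℚ)) :=
    (minpoly.eq_of_irreducible_of_monic hirr hroot (monic_X_pow_sub_C _ two_ne_zero)).symm
  have hint : IsIntegral ℚ y := ⟨X ^ 2 - C (-(D : ℚ)), monic_X_pow_sub_C _ two_ne_zero, hroot⟩
  have hK : fld D = ℚ⟮y⟯ := by unfold fld; rw [hy]
  rw [hK]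
  have hfin : Module.finrank ℚ ℚ⟮y⟯ = 2 := by
    rw [IntermediateField.adjoin.finrank hint, hmin, natDegree_X_pow_sub_C]
  have : FiniteDimensional ℚ ℚ⟮y⟯ := IntermediateField.adjoin.finiteDimensional hint
  have hNF : NumberField ℚ⟮y⟯ := ⟨⟩
  refine ⟨hNF, hfin, ⟨AdjoinSimple.gen ℚ y, ?_⟩, ?_⟩
  · rw [AdjoinSimple.coe_gen, hy]
    simp only [Complex.mul_im, Complex.I_re, Complex.I_im, Complex.ofReal_re, Complex.ofReal_im]
    have : 0 < Real.sqrt D := Real.sqrt_pos.2 (by exact_mod_cast hD)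
    simp [this.ne']
  · have h4 := Pool.Agent.Y797.FK.t_DISC.1 ℚ⟮y⟯ hfin D hsf ⟨AdjoinSimple.gen ℚ y, by
      apply Subtype.ext
      push_cast
      rw [AdjoinSimple.coe_gen]
      exact hy2⟩
    rw [h4, if_pos h3]

/-- finitely many fields -/
theorem finite_fields (P : IntermediateField ℚ ℂ → Prop) (X : ℝ)
    (hP : ∀ K, P K → ∃ _ : NumberField K, |((discr K : ℤ) : ℝ)| ≤ X) : {K | P K}.Finite := by
  have h1 := NumberField.finite_of_discr_bdd ℂ ⌊X⌋₊
  refine (h1.image Subtype.val).subset ?_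
  intro K hK
  obtain ⟨hNF, h2⟩ := hP K hK
  refine ⟨⟨K, hNF.to_finiteDimensional⟩, ?_, rfl⟩
  change |discr K| ≤ ((⌊X⌋₊ : ℕ) : ℤ)
  have h3 : (discr K).natAbs ≤ ⌊X⌋₊ := by
    apply Nat.le_floor
    rw [Nat.cast_natAbs]
    push_cast
    exact h2
  rw [Int.abs_eq_natAbs]
  exact_mod_cast h3

end Pool.Agent.X32.Cls
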