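import Pool.Agent.X32.Uni.UGold
import Pool.Agent.X32.Cls.Fld

/-! Goldbach pairs `p`, `N - p` with squarefree product. -/

set_option autoImplicit false

namespace Pool.Agent.X32.Cls

open Finset Filter Pool.Agent.X32.Uni

theorem sq_or {w : ℕ} (hw : 1 < w) (hl : w.primeFactorsList.length ≤ 2) : Squarefree w ∨ ∃ q, w = q * q := by
  by_cases h : Squarefree w
  · exact Or.inl h
  · right
    rw [Nat.squarefree_iff_prime_squarefree] at h
    push Not at h
    obtain ⟨q, hq, r, hr⟩ := h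
    refine ⟨q, ?_⟩
    have hr0 : r ≠ 0 := by
      rintro rfl
      omega
    have hqq : q * q ≠ 0 := by
      have := hq.pos
      positivity
    have h1 := (Nat.perm_primeFactorsList_mul hqq hr0).length_eq
    have h2 := (Nat.perm_primeFactorsList_mul hq.ne_zero hq.ne_zero).length_eq
    rw [List.length_append] at h1 h2
    rw [Nat.primeFactorsList_prime hq] at h2
    rw [← hr, h2] at h1
    simp only [List.length_cons, List.length_nil] at h1
    have h3 : r.primeFactorsList.length = 0 := by omega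
    rw [List.length_eq_zero_iff, Nat.primeFactorsList_eq_nil] at h3
    rcases h3 with h3 | h3
    · exact absurd h3 hr0
    · rw [hr, h3, mul_one]

/-- Goldbach pairs -/
theorem gold_pairs : ∃ κ : ℝ, 0 < κ ∧ ∃ N₀ : ℕ, ∀ N : ℕ, N₀ ≤ N → 4 ∣ N → ∃ S : Finset ℕ,
    κ * N / Real.log N ^ 2 ≤ (S.card : ℝ) ∧ ∀ p ∈ S, p.Prime ∧ N < 4 * p ∧ 2 * p ≤ N ∧
      Squarefree (N - p) ∧ (N - p).primeFactorsList.length ≤ 2 ∧
      ∀ q : ℕ, q.Prime → q ∣ N - p → (N : ℝ) ^ (1 / 9 : ℝ) < q := by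
  classical
  obtain ⟨z, G, t, ht, κ, hκ, H⟩ := goldQ 0 0
  obtain ⟨c, N₀, h⟩ := H 0 1 1 (1 / 4) 1 le_rfl (by norm_num) one_pos
  have hlim : ∀ᶠ N : ℕ in atTop, (N : ℝ) ^ (1 / 2 : ℝ) + 1 ≤ κ ^ 2 / 8 * (N / Real.log N ^ 2) := by
    have h1 : ∀ᶠ N : ℕ in atTop, 1024 / κ ^ 2 ≤ (N : ℝ) ^ (1 / 4 : ℝ) :=
      ((tendsto_rpow_atTop (by norm_num : (0 : ℝ) < 1 / 4)).comp tendsto_natCast_atTop_atTop).eventually_ge_atTop _
    filter_upwards [h1, eventually_ge_atTop 3] with N h1 hN3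
    have hN3' : (3 : ℝ) ≤ N := by exact_mod_cast hN3
    have hN0 : (0 : ℝ) ≤ N := by linarith
    have hlog : 0 < Real.log N := Real.log_pos (by linarith)
    have h2 : Real.log N ≤ (N : ℝ) ^ (1 / 8 : ℝ) / (1 / 8) := Real.log_le_rpow_div hN0 (by norm_num)
    have h3 : Real.log N ^ 2 ≤ 64 * (N : ℝ) ^ (1 / 4 : ℝ) := by
      have e : ((N : ℝ) ^ (1 / 8 : ℝ)) ^ 2 = (N : ℝ) ^ (1 / 4 : ℝ) := by
        rw [← Real.rpow_natCast, ← Real.rpow_mul hN0]
        norm_num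
      calc Real.log N ^ 2 ≤ ((N : ℝ) ^ (1 / 8 : ℝ) / (1 / 8)) ^ 2 := pow_le_pow_left₀ hlog.le h2 2
        _ = 64 * (N : ℝ) ^ (1 / 4 : ℝ) := by rw [← e]; ring
    obtain ⟨a, ha⟩ : ∃ a : ℝ, a = (N : ℝ) ^ (1 / 4 : ℝ) := ⟨_, rfl⟩
    have ha0 : 0 < a := by rw [ha]; positivity
    have e2 : (N : ℝ) ^ (1 / 2 : ℝ) = a ^ 2 := by
      rw [ha, ← Real.rpow_natCast, ← Real.rpow_mul hN0]
      norm_num
    have e4 : (N : ℝ) = a ^ 4 := by
      rw [ha, ← Real.rpow_natCast, ← Real.rpow_mul hN0]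
      norm_num
    have ha1 : 1 ≤ a := by rw [ha]; exact Real.one_le_rpow (by linarith) (by norm_num)
    rw [← ha] at h1 h3
    rw [e2]
    have h5 : a ^ 3 / 64 ≤ (N : ℝ) / Real.log N ^ 2 := by
      rw [le_div_iff₀ (by positivity), div_mul_eq_mul_div, div_le_iff₀ (by norm_num)]
      calc a ^ 3 * Real.log N ^ 2 ≤ a ^ 3 * (64 * a) := mul_le_mul_of_nonneg_left h3 (by positivity)
        _ = N * 64 := by rw [e4]; ring
    have h6 : 1024 ≤ a * κ ^ 2 := by
      rwa [div_le_iff₀ (by positivity)] at h1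
    calc a ^ 2 + 1 ≤ 2 * a ^ 2 := by nlinarith
      _ = 1024 * a ^ 2 / 512 := by ring
      _ ≤ (a * κ ^ 2) * a ^ 2 / 512 := by
          apply div_le_div_of_nonneg_right _ (by norm_num)
          exact mul_le_mul_of_nonneg_right h6 (by positivity)
      _ = κ ^ 2 / 8 * (a ^ 3 / 64) := by ring
      _ ≤ _ := mul_le_mul_of_nonneg_left h5 (by positivity)
  obtain ⟨N₁, hN₁⟩ := eventually_atTop.1 hlim
  refine ⟨κ ^ 2 / 8, by positivity, max (max N₀ N₁) 8, fun N hN h4 => ?_⟩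
  have hN0 : N₀ ≤ N := by omega
  have hN1 : N₁ ≤ N := by omega
  have hN8 : 8 ≤ N := by omega
  obtain ⟨m, rfl⟩ := h4
  obtain ⟨h1, h2⟩ := h (4 * m) hN0 ∅ ∅ (subset_refl _) (by simp) (by simp) (admG_even _ ⟨2 * m, by ring⟩)
  obtain ⟨h3, -⟩ := h2 m (2 * m) (by omega) (by push_cast; linarith)
  obtain ⟨S, hS⟩ : ∃ S, S = GG (4 * m) ∅ ∅ z G t m (2 * m) := ⟨_, rfl⟩
  rw [← hS] at h3
  refine ⟨S.filter (fun p => Squarefree (4 * m - p)), ?_, ?_⟩
  · have hbad : (S.filter (fun p => ¬ Squarefree (4 * m - p))).card ≤ Nat.sqrt (4 * m) + 1 := by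
      calc (S.filter (fun p => ¬ Squarefree (4 * m - p))).card
          ≤ ((range (Nat.sqrt (4 * m) + 1)).image (fun q => 4 * m - q * q)).card := by
            apply card_le_card
            intro p hp
            rw [mem_filter, hS] at hp
            obtain ⟨hp1, hp2⟩ := hp
            unfold GG at hp1
            rw [mem_filter, mem_Ioc] at hp1
            obtain ⟨⟨hp3, hp4⟩, hp5, hp6, _⟩ := hp1
            unfold Almost at hp6
            have e : ((4 * m : ℕ) : ℤ) - p = ((4 * m - p : ℕ) : ℤ) := by omega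
            rw [e, Int.natAbs_natCast] at hp6
            rcases sq_or (w := 4 * m - p) (by omega) hp6.2.1 with h5 | ⟨q, hq⟩
            · exact absurd h5 hp2
            · rw [mem_image]
              refine ⟨q, ?_, by omega⟩
              rw [mem_range, Nat.lt_succ_iff, Nat.le_sqrt]
              omega
        _ ≤ (range (Nat.sqrt (4 * m) + 1)).card := card_image_le
        _ = _ := card_range _
    have hsum := card_filter_add_card_filter_not (s := S) (fun p => Squarefree (4 * m - p))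
    have h5 := hN₁ _ hN1
    have h6 : ((Nat.sqrt (4 * m) : ℕ) : ℝ) ≤ ((4 * m : ℕ) : ℝ) ^ (1 / 2 : ℝ) := by
      rw [← Real.sqrt_eq_rpow]
      exact Real.nat_sqrt_le_real_sqrt
    have h7 : κ ^ 2 / 4 * (((4 * m : ℕ) : ℝ) / Real.log ((4 * m : ℕ) : ℝ) ^ 2) ≤ S.card := by
      refine le_trans ?_ h3
      simp only [mul_zero, zero_add] at h1
      have e : κ ^ 2 / 4 * (((4 * m : ℕ) : ℝ) / Real.log ((4 * m : ℕ) : ℝ) ^ 2) =
          κ * (((2 * m : ℕ) : ℝ) - m) * (κ / Real.log ((4 * m : ℕ) : ℝ) ^ 2) := by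
        push_cast
        ring
      rw [e]
      apply mul_le_mul_of_nonneg_left h1
      have : (0 : ℝ) ≤ ((2 * m : ℕ) : ℝ) - m := by push_cast; linarith [(by positivity : (0 : ℝ) ≤ m)]
      positivity
    have h8 : ((S.filter (fun p => Squarefree (4 * m - p))).card : ℝ) +
        ((S.filter (fun p => ¬ Squarefree (4 * m - p))).card : ℝ) = S.card := by exact_mod_cast hsum
    have h9 : ((S.filter (fun p => ¬ Squarefree (4 * m - p))).card : ℝ) ≤ (Nat.sqrt (4 * m) : ℝ) + 1 := by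
      exact_mod_cast hbad
    have e10 : κ ^ 2 / 8 * ((4 * m : ℕ) : ℝ) / Real.log ((4 * m : ℕ) : ℝ) ^ 2 =
      κ ^ 2 / 8 * (((4 * m : ℕ) : ℝ) / Real.log ((4 * m : ℕ) : ℝ) ^ 2) := by ring
    rw [e10]
    linarith
  · intro p hp
    rw [mem_filter, hS] at hp
    obtain ⟨hp1, hp2⟩ := hp
    unfold GG at hp1
    rw [mem_filter, mem_Ioc] at hp1
    obtain ⟨⟨hp3, hp4⟩, hp5, hp6, _⟩ := hp1
    unfold Almost at hp6
    have e : ((4 * m : ℕ) : ℤ) - p = ((4 * m - p : ℕ) : ℤ) := by omega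
    rw [e, Int.natAbs_natCast] at hp6
    refine ⟨hp5, by omega, by omega, hp2, hp6.2.1, fun q hq hd => ?_⟩
    exact hp6.2.2 q hq (by exact_mod_cast hd)

end Pool.Agent.X32.Cls
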