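import Pool.Agent.X32.Cls.Fin

/-! Every large integer is the norm of an ideal whose class has order `2 g` in many imaginary quadratic fields with at
most three ramified primes. -/

set_option autoImplicit false

namespace Pool.Agent.X32.Cls

open Finset Filter NumberField

theorem every (g : ℕ) (hg : 1 ≤ g) : ∃ κ : ℝ, 0 < κ ∧ ∃ M₀ : ℕ, ∀ M : ℕ, M₀ ≤ M → ∃ S : Finset ℕ,
    κ * (M : ℝ) ^ g / Real.log M ^ 2 ≤ (S.card : ℝ) ∧ ∀ p ∈ S, p.Prime ∧ M ^ g < p ∧ p ≤ 2 * M ^ g ∧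
      (4 * M ^ g - p).primeFactorsList.length ≤ 2 ∧
      Squarefree (p * (4 * M ^ g - p)) ∧ (p * (4 * M ^ g - p)) % 4 = 3 ∧
      ∀ (K : Type) [Field K] [NumberField K], Module.finrank ℚ K = 2 →
        discr K = -((p * (4 * M ^ g - p) : ℕ) : ℤ) →
        ∃ I : nonZeroDivisors (Ideal (𝓞 K)), Ideal.absNorm (I : Ideal (𝓞 K)) = M ∧
          orderOf (ClassGroup.mk0 I) = 2 * g := by
  obtain ⟨κ, hκ, N₀, hN₀⟩ := gold_pairs
  refine ⟨κ * 4 / (g + 2) ^ 2, by positivity, N₀ + 2, fun M hM => ?_⟩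
  have hMg : M ≤ M ^ g := Nat.le_self_pow (by omega) M
  obtain ⟨S, hS1, hS2⟩ := hN₀ (4 * M ^ g) (by omega) (dvd_mul_right _ _)
  have hM2 : (2 : ℝ) ≤ M := by exact_mod_cast (by omega : 2 ≤ M)
  have hlog : 0 < Real.log M := Real.log_pos (by linarith)
  have hlog4 : Real.log ((4 * M ^ g : ℕ) : ℝ) ≤ (g + 2) * Real.log M := by
    push_cast
    rw [Real.log_mul (by norm_num) (by positivity), Real.log_pow]
    have h4 : Real.log 4 = 2 * Real.log 2 := by
      rw [show (4 : ℝ) = 2 ^ 2 by norm_num, Real.log_pow]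
      push_cast
      ring
    have h5 : Real.log 2 ≤ Real.log M := Real.log_le_log (by norm_num) hM2
    rw [h4]
    linarith
  have hlog5 : 0 < Real.log ((4 * M ^ g : ℕ) : ℝ) := by
    apply Real.log_pos
    exact_mod_cast (by omega : 1 < 4 * M ^ g)
  refine ⟨S, le_trans ?_ hS1, fun p hp => ?_⟩
  · calc κ * 4 / (g + 2) ^ 2 * (M : ℝ) ^ g / Real.log M ^ 2
        = κ * ((4 * M ^ g : ℕ) : ℝ) / ((g + 2) * Real.log M) ^ 2 := by
          push_cast
          field_simp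
      _ ≤ _ := by gcongr
  · obtain ⟨h1, h2, h3, h4, h5, -⟩ := hS2 p hp
    obtain ⟨s1, s2, s3, s4⟩ := pair_spec hg (by omega : 2 ≤ M) h1 h2 h3 h4 h5
    exact ⟨h1, by omega, by omega, h5, s1, s2, s4⟩

end Pool.Agent.X32.Cls
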