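import Pool.Agent.X32.Cls.Cnt

/-! Imaginary quadratic fields with few ramified primes and classes of given order. -/

set_option autoImplicit false

namespace Pool.Agent.X32.Cls

open Finset Filter NumberField

theorem pair_spec {g M p : ℕ} (hg : 1 ≤ g) (hM : 2 ≤ M) (hp : p.Prime) (h1 : 4 * M ^ g < 4 * p)
    (h2 : 2 * p ≤ 4 * M ^ g) (hsf : Squarefree (4 * M ^ g - p))
    (hl : (4 * M ^ g - p).primeFactorsList.length ≤ 2) :
    Squarefree (p * (4 * M ^ g - p)) ∧ (p * (4 * M ^ g - p)) % 4 = 3 ∧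
      (p * (4 * M ^ g - p)).primeFactorsList.length ≤ 3 ∧
      ∀ (K : Type) [Field K] [NumberField K], Module.finrank ℚ K = 2 →
        discr K = -((p * (4 * M ^ g - p) : ℕ) : ℤ) →
        ∃ I : nonZeroDivisors (Ideal (𝓞 K)), Ideal.absNorm (I : Ideal (𝓞 K)) = M ∧
          orderOf (ClassGroup.mk0 I) = 2 * g := by
  have hMg : M ≤ M ^ g := Nat.le_self_pow (by omega) M
  have hMp : M < p := by omega
  have hp2 : p ≠ 2 := by omega
  have hodd : p % 2 = 1 := Nat.odd_iff.1 (hp.odd_of_ne_two hp2)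
  have hndM : ¬ p ∣ M := fun h => by
    have := Nat.le_of_dvd (by omega) h
    omega
  have hnd : ¬ p ∣ 4 * M ^ g - p := by
    intro h
    have h3 : p ∣ 4 * M ^ g := by
      have := (Nat.dvd_add_right (dvd_refl p)).2 h
      rwa [Nat.add_sub_cancel' (by omega)] at this
    rcases hp.dvd_mul.1 h3 with h4 | h4
    · have := Nat.le_of_dvd (by norm_num) h4
      interval_cases p <;> omega
    · exact hndM (hp.dvd_of_dvd_pow h4)
  obtain ⟨w, hw⟩ : ∃ w, w = 4 * M ^ g - p := ⟨_, rfl⟩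
  have hpw : p + w = 4 * M ^ g := by omega
  rw [← hw] at hsf hl hnd ⊢
  have hcop : Nat.Coprime p w := (Nat.Prime.coprime_iff_not_dvd hp).2 hnd
  refine ⟨(Nat.squarefree_mul hcop).2 ⟨hp.squarefree, hsf⟩, ?_, ?_, ?_⟩
  · have h4 : (p + w) % 4 = 0 := by rw [hpw]; omega
    have h5 : p % 4 = 1 ∧ w % 4 = 3 ∨ p % 4 = 3 ∧ w % 4 = 1 := by omega
    rw [Nat.mul_mod]
    rcases h5 with ⟨h5, h6⟩ | ⟨h5, h6⟩ <;> rw [h5, h6]
  · have hw0 : w ≠ 0 := hsf.ne_zero
    have h1 := (Nat.perm_primeFactorsList_mul hp.ne_zero hw0).length_eq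
    rw [List.length_append, Nat.primeFactorsList_prime hp, List.length_singleton] at h1
    omega
  · intro K _ _ hK hd
    have hp3 : 3 ≤ p := by omega
    have hwp : 2 * M ^ g ≤ w := by omega
    have hppos : 0 < p * w := by
      have : 0 < w := by omega
      positivity
    have hppos' : (0 : ℤ) < ((p * w : ℕ) : ℤ) := by exact_mod_cast hppos
    refine order_disc hK (by rw [hd]; omega) (n := (p : ℤ) - 2 * (M : ℤ) ^ g) (f := 1) hM (by omega) one_ne_zero ?_ ?_ ?_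
    · have h3 : IsCoprime (p : ℤ) (M : ℤ) := by
        rw [Nat.isCoprime_iff_coprime]
        exact (Nat.Prime.coprime_iff_not_dvd hp).2 hndM
      obtain ⟨g', rfl⟩ : ∃ g', g = g' + 1 := ⟨g - 1, by omega⟩
      have e : (p : ℤ) - 2 * (M : ℤ) ^ (g' + 1) = p + M * (-(2 * (M : ℤ) ^ g')) := by ring
      rw [e]
      exact h3.add_mul_left_left _
    · rw [hd]
      have e : (w : ℤ) = 4 * (M : ℤ) ^ g - p := by
        have : ((p + w : ℕ) : ℤ) = ((4 * M ^ g : ℕ) : ℤ) := by rw [hpw]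
        push_cast at this
        linarith
      push_cast
      rw [e]
      ring
    · intro k hk hlt
      rw [hd, abs_neg, abs_of_pos hppos']
      have hkg : k ≤ g := by
        obtain ⟨j, hj⟩ := hk
        have hj2 : 2 ≤ j := by
          by_contra hcon
          have : j = 0 ∨ j = 1 := by omega
          rcases this with rfl | rfl <;> omega
        nlinarith
      have h5 : M ^ k ≤ M ^ g := Nat.pow_le_pow_right (by omega) hkg
      have h6 : 4 * M ^ k < p * w := by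
        calc 4 * M ^ k ≤ 4 * M ^ g := by omega
          _ < 3 * (2 * M ^ g) := by omega
          _ ≤ p * w := Nat.mul_le_mul hp3 hwp
      exact_mod_cast h6

/-- the fields of the theorem -/
def Fd (X : ℝ) (g : ℕ) (K : IntermediateField ℚ ℂ) : Prop :=
  ∃ _ : NumberField K, Module.finrank ℚ K = 2 ∧ (∃ x : K, (x : ℂ).im ≠ 0) ∧
    |((discr K : ℤ) : ℝ)| ≤ X ∧ Squarefree (discr K) ∧ (discr K).natAbs.primeFactorsList.length ≤ 3 ∧
    (∀ q : ℕ, q.Prime → q ∣ (discr K).natAbs → X ^ (1 / 20 : ℝ) < q) ∧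
    ∃ c : ClassGroup (𝓞 K), orderOf c = 2 * g

theorem count (g : ℕ) (hg : 1 ≤ g) : ∃ c : ℝ, 0 < c ∧ ∃ X₀ : ℝ, ∀ X : ℝ, X₀ ≤ X →
    c * X ^ (1 / 2 + 1 / (2 * g) : ℝ) / Real.log X ^ 2 ≤ (Set.ncard {K | Fd X g K} : ℝ) := by
  classical
  obtain ⟨κ, hκ, N₀, hN₀⟩ := gold_pairs
  choose! S hS1 hS2 using hN₀
  have hgR : (1 : ℝ) ≤ g := by exact_mod_cast hg
  have hg2 : (0 : ℝ) < 2 * g := by linarith
  have ev1 : ∀ᶠ X : ℝ in atTop, (2 * (N₀ + 16) : ℝ) + 2 ≤ (X / 4) ^ (1 / (2 * g) : ℝ) := by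
    have h1 : Tendsto (fun X : ℝ => X / 4) atTop atTop := tendsto_id.atTop_div_const (by norm_num)
    exact ((tendsto_rpow_atTop (by positivity : (0 : ℝ) < 1 / (2 * g))).comp h1).eventually_ge_atTop _
  have ev2 : ∀ᶠ X : ℝ in atTop, (4 : ℝ) ^ g ≤ X ^ (1 / 20 : ℝ) :=
    (tendsto_rpow_atTop (by norm_num : (0 : ℝ) < 1 / 20)).eventually_ge_atTop _
  obtain ⟨X₀, hX₀⟩ := eventually_atTop.1 ((ev1.and ev2).and (eventually_ge_atTop 16))
  refine ⟨κ * 4 / (4 : ℝ) ^ (g + 1) / (4 : ℝ) ^ (1 / 2 + 1 / (2 * g) : ℝ) / 3, by positivity, X₀, fun X hX => ?_⟩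
  obtain ⟨⟨hy2, hX2⟩, hX16⟩ := hX₀ X hX
  have hX0 : (0 : ℝ) < X := by linarith
  obtain ⟨y, hy⟩ : ∃ y : ℝ, y = (X / 4) ^ (1 / (2 * g) : ℝ) := ⟨_, rfl⟩
  rw [← hy] at hy2
  have hN0R : (0 : ℝ) ≤ N₀ := by positivity
  have hy0 : 0 < y := by linarith
  have hyg : y ^ (2 * g) = X / 4 := by
    rw [hy, ← Real.rpow_natCast, ← Real.rpow_mul (by positivity)]
    push_cast
    rw [one_div_mul_cancel hg2.ne', Real.rpow_one]
  obtain ⟨Y, hY⟩ : ∃ Y : ℕ, Y = ⌊y⌋₊ := ⟨_, rfl⟩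
  have hYy : (Y : ℝ) ≤ y := by rw [hY]; exact Nat.floor_le hy0.le
  have hYy2 : y / 2 ≤ Y := by
    have := Nat.lt_floor_add_one y
    rw [← hY] at this
    linarith
  have hYN : 2 * (N₀ + 16) < Y := by
    have : ((2 * (N₀ + 16) : ℕ) : ℝ) + 2 ≤ y := by push_cast; exact hy2
    have h3 := Nat.lt_floor_add_one y
    rw [← hY] at h3
    have h4 : ((2 * (N₀ + 16) : ℕ) : ℝ) < Y := by linarith
    exact_mod_cast h4
  -- the pairs
  obtain ⟨P, hP⟩ : ∃ P : Finset (Σ _ : ℕ, ℕ), P = (Ioc (Y / 2) Y).sigma (fun M => S (4 * M ^ g)) := ⟨_, rfl⟩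
  have hMN : ∀ M ∈ Ioc (Y / 2) Y, N₀ ≤ 4 * M ^ g ∧ 16 ≤ M := by
    intro M hM
    rw [mem_Ioc] at hM
    have : M ≤ M ^ g := Nat.le_self_pow (by omega) M
    omega
  have hmem : ∀ a ∈ P, a.1 ∈ Ioc (Y / 2) Y ∧ a.2.Prime ∧ 4 * a.1 ^ g < 4 * a.2 ∧ 2 * a.2 ≤ 4 * a.1 ^ g ∧
      Squarefree (4 * a.1 ^ g - a.2) ∧ (4 * a.1 ^ g - a.2).primeFactorsList.length ≤ 2 ∧
      ∀ q : ℕ, q.Prime → q ∣ 4 * a.1 ^ g - a.2 → ((4 * a.1 ^ g : ℕ) : ℝ) ^ (1 / 9 : ℝ) < q := by
    rintro ⟨M, p⟩ ha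
    rw [hP, mem_sigma] at ha
    exact ⟨ha.1, hS2 _ (hMN _ ha.1).1 (dvd_mul_right _ _) _ ha.2⟩
  obtain ⟨F, hF⟩ : ∃ F : Finset ℕ, F = P.image (fun a => a.2 * (4 * a.1 ^ g - a.2)) := ⟨_, rfl⟩
  have hPF : P.card ≤ 3 * F.card := by
    rw [hF]
    apply card_le_mul_card_image
    intro D hD
    rw [mem_image] at hD
    obtain ⟨a, ha, rfl⟩ := hD
    obtain ⟨b1, b2, b3, b4, b5, b6, b7⟩ := hmem a ha
    have hs := pair_spec hg (by have := (hMN _ b1).2; omega) b2 b3 b4 b5 b6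
    calc (P.filter (fun b => b.2 * (4 * b.1 ^ g - b.2) = a.2 * (4 * a.1 ^ g - a.2))).card
        ≤ (a.2 * (4 * a.1 ^ g - a.2)).primeFactors.card := by
          apply card_le_card_of_injOn (fun b => b.2)
          · intro b hb
            rw [mem_coe, mem_filter] at hb
            obtain ⟨hb1, hb2⟩ := hb
            obtain ⟨c1, c2, c3, c4, c5, c6, c7⟩ := hmem b hb1
            rw [mem_coe, Nat.mem_primeFactors]
            exact ⟨c2, by rw [← hb2]; exact dvd_mul_right _ _, hs.1.ne_zero⟩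
          · intro b hb b' hb' hbb
            rw [mem_coe, mem_filter] at hb hb'
            obtain ⟨hb1, hb2⟩ := hb
            obtain ⟨hb1', hb2'⟩ := hb'
            obtain ⟨c1, c2, c3, c4, c5, c6, c7⟩ := hmem b hb1
            obtain ⟨d1, d2, d3, d4, d5, d6, d7⟩ := hmem b' hb1'
            obtain ⟨M, p⟩ := b
            obtain ⟨M', p'⟩ := b'
            simp only at hbb hb2 hb2' c2 c3 c4 d2 d3 d4
            subst hbb
            have h8 : p * (4 * M ^ g - p) = p * (4 * M' ^ g - p) := by rw [hb2, hb2']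
            have h9 := Nat.eq_of_mul_eq_mul_left c2.pos h8
            have h10 : M ^ g = M' ^ g := by omega
            rw [Nat.pow_left_injective (by omega : g ≠ 0) h10]
      _ ≤ (a.2 * (4 * a.1 ^ g - a.2)).primeFactorsList.length := by
          unfold Nat.primeFactors
          exact List.toFinset_card_le _
      _ ≤ 3 := hs.2.2.1
  -- the fields
  have hfield : ∀ D ∈ F, Squarefree D ∧ D % 4 = 3 ∧ Fd X g (fld D) := by
    intro D hD
    rw [hF, mem_image] at hD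
    obtain ⟨a, ha, rfl⟩ := hD
    obtain ⟨b1, b2, b3, b4, b5, b6, b7⟩ := hmem a ha
    obtain ⟨M, p⟩ := a
    simp only at b1 b2 b3 b4 b5 b6 b7 ⊢
    obtain ⟨s1, s2, s3, s4⟩ := pair_spec hg (by have := (hMN _ b1).2; omega) b2 b3 b4 b5 b6
    refine ⟨s1, s2, ?_⟩
    obtain ⟨hNF, f1, f2, f3⟩ := fld_spec s1 s2
    have hM := mem_Ioc.1 b1
    have hM16 := (hMN _ b1).2
    refine ⟨hNF, f1, f2, ?_, ?_, ?_, ?_, ?_⟩
    · rw [f3]
      push_cast
      rw [abs_neg]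
      have h5 : p * (4 * M ^ g - p) ≤ 4 * M ^ (2 * g) := by
        obtain ⟨w, hw⟩ : ∃ w, w = 4 * M ^ g - p := ⟨_, rfl⟩
        rw [← hw]
        have h6 : p + w = 4 * M ^ g := by omega
        have e : M ^ (2 * g) = M ^ g * M ^ g := by rw [two_mul, pow_add]
        rw [e]
        nlinarith [sq_nonneg ((p : ℤ) - w), Nat.mul_le_mul (le_refl p) (le_refl w), four_mul_le_sq_add (p : ℕ) w]
      have h6 : ((p * (4 * M ^ g - p) : ℕ) : ℝ) ≤ X := by
        calc ((p * (4 * M ^ g - p) : ℕ) : ℝ) ≤ ((4 * M ^ (2 * g) : ℕ) : ℝ) := by exact_mod_cast h5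
          _ = 4 * (M : ℝ) ^ (2 * g) := by push_cast; ring
          _ ≤ 4 * y ^ (2 * g) := by
              have : (M : ℝ) ≤ y := le_trans (by exact_mod_cast hM.2) hYy
              gcongr
          _ = X := by rw [hyg]; ring
      rw [abs_of_nonneg]
      · exact_mod_cast h6
      · exact_mod_cast Nat.zero_le _
    · rw [f3, Int.squarefree_natAbs.symm, Int.natAbs_neg, Int.natAbs_natCast]
      exact s1
    · rw [f3, Int.natAbs_neg, Int.natAbs_natCast]
      exact s3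
    · rw [f3, Int.natAbs_neg, Int.natAbs_natCast]
      intro q hq hqd
      have hMR : y / 4 ≤ M := by
        have h7 : Y < 2 * M := by omega
        have h8 : (Y : ℝ) < 2 * M := by exact_mod_cast h7
        linarith
      have hN : X ^ (9 / 20 : ℝ) ≤ 4 * (M : ℝ) ^ g := by
        have hyy : y ^ g = X ^ (1 / 2 : ℝ) / 2 := by
          have e1 : (y ^ g) ^ 2 = (X ^ (1 / 2 : ℝ) / 2) ^ 2 := by
            rw [← pow_mul, mul_comm g 2, hyg, div_pow, ← Real.rpow_natCast (X ^ (1 / 2 : ℝ)), ← Real.rpow_mul hX0.le]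
            norm_num
          exact (pow_left_inj₀ (by positivity) (by positivity) two_ne_zero).1 e1
        have e2 : X ^ (1 / 2 : ℝ) = X ^ (9 / 20 : ℝ) * X ^ (1 / 20 : ℝ) := by
          rw [← Real.rpow_add hX0]
          norm_num
        calc X ^ (9 / 20 : ℝ) ≤ 2 * (X ^ (9 / 20 : ℝ) * X ^ (1 / 20 : ℝ) / 4 ^ g) := by
              have : X ^ (9 / 20 : ℝ) * 4 ^ g ≤ X ^ (9 / 20 : ℝ) * X ^ (1 / 20 : ℝ) :=
                mul_le_mul_of_nonneg_left hX2 (by positivity)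
              have h4 : (0 : ℝ) < 4 ^ g := by positivity
              have h5 : X ^ (9 / 20 : ℝ) ≤ X ^ (9 / 20 : ℝ) * X ^ (1 / 20 : ℝ) / 4 ^ g := by
                rwa [le_div_iff₀ h4]
              have h6 : 0 ≤ X ^ (9 / 20 : ℝ) * X ^ (1 / 20 : ℝ) / 4 ^ g := by positivity
              linarith
          _ = 4 * (y ^ g / 4 ^ g) := by rw [hyy, e2]; ring
          _ = 4 * (y / 4) ^ g := by rw [div_pow]
          _ ≤ 4 * (M : ℝ) ^ g := by gcongr
      have hN9 : X ^ (1 / 20 : ℝ) ≤ ((4 * M ^ g : ℕ) : ℝ) ^ (1 / 9 : ℝ) := by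
        calc X ^ (1 / 20 : ℝ) = (X ^ (9 / 20 : ℝ)) ^ (1 / 9 : ℝ) := by
              rw [← Real.rpow_mul hX0.le]
              norm_num
          _ ≤ (4 * (M : ℝ) ^ g) ^ (1 / 9 : ℝ) := Real.rpow_le_rpow (by positivity) hN (by norm_num)
          _ = _ := by push_cast; rfl
      rcases hq.dvd_mul.1 hqd with h | h
      · rw [(Nat.prime_dvd_prime_iff_eq hq b2).1 h]
        have hMg : M ≤ M ^ g := Nat.le_self_pow (by omega) M
        have h16 : (1 : ℝ) ≤ ((M ^ g : ℕ) : ℝ) := by exact_mod_cast (by omega : 1 ≤ M ^ g)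
        have h17 : ((M ^ g : ℕ) : ℝ) < p := by exact_mod_cast (by omega : M ^ g < p)
        have h18 : ((4 * M ^ g : ℕ) : ℝ) ^ (1 / 9 : ℝ) ≤ ((M ^ g : ℕ) : ℝ) := by
          have h19 : (16 : ℝ) ≤ ((M ^ g : ℕ) : ℝ) := by exact_mod_cast (by omega : 16 ≤ M ^ g)
          have h20 : ((4 * M ^ g : ℕ) : ℝ) ≤ ((M ^ g : ℕ) : ℝ) ^ 9 := by
            have h21 : (4 : ℝ) ≤ ((M ^ g : ℕ) : ℝ) ^ 8 := by
              calc (4 : ℝ) ≤ 16 ^ 8 := by norm_num
                _ ≤ ((M ^ g : ℕ) : ℝ) ^ 8 := by gcongr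
            calc ((4 * M ^ g : ℕ) : ℝ) = 4 * ((M ^ g : ℕ) : ℝ) := by push_cast; ring
              _ ≤ ((M ^ g : ℕ) : ℝ) ^ 8 * ((M ^ g : ℕ) : ℝ) := by gcongr
              _ = _ := by ring
          calc ((4 * M ^ g : ℕ) : ℝ) ^ (1 / 9 : ℝ) ≤ (((M ^ g : ℕ) : ℝ) ^ 9) ^ (1 / 9 : ℝ) :=
                Real.rpow_le_rpow (by positivity) h20 (by norm_num)
            _ = ((M ^ g : ℕ) : ℝ) := by
                rw [← Real.rpow_natCast, ← Real.rpow_mul (by positivity)]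
                norm_num
        linarith
      · exact lt_of_le_of_lt hN9 (b7 q hq h)
    · obtain ⟨I, -, hI⟩ := s4 (fld (p * (4 * M ^ g - p))) f1 f3
      exact ⟨_, hI⟩
  have hinj : Set.InjOn fld (F : Set ℕ) := by
    intro D hD D' hD' he
    obtain ⟨s1, s2, -⟩ := hfield D hD
    obtain ⟨s1', s2', -⟩ := hfield D' hD'
    obtain ⟨hNF, _, _, f3⟩ := fld_spec s1 s2
    obtain ⟨hNF', _, _, f3'⟩ := fld_spec s1' s2'
    have key : ∀ (A B : IntermediateField ℚ ℂ) (hA : NumberField A) (hB : NumberField B), A = B →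
        discr A = discr B := by
      intro A B hA hB hAB
      subst hAB
      rfl
    have := key _ _ hNF hNF' he
    rw [f3, f3'] at this
    omega
  have hfin : {K | Fd X g K}.Finite := finite_fields _ X fun K hK => by
    obtain ⟨h1, h2, h3, h4, _⟩ := hK
    exact ⟨h1, h4⟩
  have hcard : F.card ≤ Set.ncard {K | Fd X g K} := by
    rw [← card_image_of_injOn hinj, ← Set.ncard_coe_finset]
    apply Set.ncard_le_ncard _ hfin
    intro K hK
    rw [mem_coe, mem_image] at hK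
    obtain ⟨D, hD, rfl⟩ := hK
    exact (hfield D hD).2.2
  -- the number of the pairs
  have hlogX : 0 < Real.log X := Real.log_pos (by linarith)
  have hlow : κ * 4 / (4 : ℝ) ^ (g + 1) * y ^ (g + 1) / Real.log X ^ 2 ≤ P.card := by
    have e1 : (P.card : ℝ) = ∑ M ∈ Ioc (Y / 2) Y, ((S (4 * M ^ g)).card : ℝ) := by
      rw [hP, card_sigma]
      push_cast
      rfl
    rw [e1]
    have h1 : ∀ M ∈ Ioc (Y / 2) Y, κ * 4 * (y / 4) ^ g / Real.log X ^ 2 ≤ ((S (4 * M ^ g)).card : ℝ) := by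
      intro M hM
      refine le_trans ?_ (hS1 _ (hMN _ hM).1 (dvd_mul_right _ _))
      have hM' := mem_Ioc.1 hM
      have hMR : y / 4 ≤ M := by
        have h7 : Y < 2 * M := by omega
        have h8 : (Y : ℝ) < 2 * M := by exact_mod_cast h7
        linarith
      have h16 := (hMN _ hM).2
      have hMg : M ≤ M ^ g := Nat.le_self_pow (by omega) M
      have h4 : (16 : ℝ) ≤ ((4 * M ^ g : ℕ) : ℝ) := by exact_mod_cast (by omega : 16 ≤ 4 * M ^ g)
      have hlog1 : 0 < Real.log ((4 * M ^ g : ℕ) : ℝ) := Real.log_pos (by linarith)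
      have hup : ((4 * M ^ g : ℕ) : ℝ) ≤ X := by
        have h5 : ((4 * M ^ g : ℕ) : ℝ) ≤ 4 * y ^ g := by
          push_cast
          have : (M : ℝ) ≤ y := le_trans (by exact_mod_cast hM'.2) hYy
          gcongr
        have h6 : (4 * y ^ g) ^ 2 = 4 * X := by
          rw [mul_pow, ← pow_mul, mul_comm g 2, hyg]
          ring
        have h7 : (4 * y ^ g) ^ 2 ≤ X ^ 2 := by
          rw [h6]
          nlinarith
        exact h5.trans (le_of_sq_le_sq h7 hX0.le)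
      have hlog2 : Real.log ((4 * M ^ g : ℕ) : ℝ) ≤ Real.log X := Real.log_le_log (by linarith) hup
      calc κ * 4 * (y / 4) ^ g / Real.log X ^ 2 ≤ κ * 4 * (y / 4) ^ g / Real.log ((4 * M ^ g : ℕ) : ℝ) ^ 2 := by
            gcongr
        _ ≤ κ * ((4 * M ^ g : ℕ) : ℝ) / Real.log ((4 * M ^ g : ℕ) : ℝ) ^ 2 := by
            apply div_le_div_of_nonneg_right _ (by positivity)
            push_cast
            rw [mul_assoc]
            gcongr
    have h2 := card_nsmul_le_sum _ _ _ h1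
    rw [nsmul_eq_mul, Nat.card_Ioc] at h2
    refine le_trans ?_ h2
    have h3 : y / 4 ≤ ((Y - Y / 2 : ℕ) : ℝ) := by
      have h5 : Y ≤ 2 * (Y - Y / 2) := by omega
      have h6 : (Y : ℝ) ≤ 2 * ((Y - Y / 2 : ℕ) : ℝ) := by exact_mod_cast h5
      linarith
    calc κ * 4 / (4 : ℝ) ^ (g + 1) * y ^ (g + 1) / Real.log X ^ 2 =
          y / 4 * (κ * 4 * (y / 4) ^ g / Real.log X ^ 2) := by
            rw [div_pow]
            field_simp
            ring
      _ ≤ _ := mul_le_mul_of_nonneg_right h3 (by positivity)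
  have hyX : y ^ (g + 1) = X ^ (1 / 2 + 1 / (2 * g) : ℝ) / (4 : ℝ) ^ (1 / 2 + 1 / (2 * g) : ℝ) := by
    rw [← Real.div_rpow hX0.le (by norm_num), hy, ← Real.rpow_natCast, ← Real.rpow_mul (by positivity)]
    congr 1
    push_cast
    field_simp
  have h1 : (P.card : ℝ) ≤ 3 * (Set.ncard {K | Fd X g K} : ℝ) := by
    calc (P.card : ℝ) ≤ 3 * (F.card : ℝ) := by exact_mod_cast hPF
      _ ≤ _ := by
        have : (F.card : ℝ) ≤ (Set.ncard {K | Fd X g K} : ℝ) := by exact_mod_cast hcard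
        linarith
  rw [hyX] at hlow
  have e : κ * 4 / (4 : ℝ) ^ (g + 1) / (4 : ℝ) ^ (1 / 2 + 1 / (2 * g) : ℝ) / 3 * X ^ (1 / 2 + 1 / (2 * g) : ℝ) /
      Real.log X ^ 2 = κ * 4 / (4 : ℝ) ^ (g + 1) * (X ^ (1 / 2 + 1 / (2 * g) : ℝ) /
        (4 : ℝ) ^ (1 / 2 + 1 / (2 * g) : ℝ)) / Real.log X ^ 2 / 3 := by ring
  rw [e]
  linarith

end Pool.Agent.X32.Cls
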