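import Pool.Agent.TH847.LS.Quad
import Pool.Agent.Y797.FK.Disc

/-! Ideal classes of given order in imaginary quadratic fields. -/

set_option autoImplicit false

namespace Pool.Agent.X32.Cls

open NumberField Pool.Agent.TH847.LS

variable {K : Type} [Field K] [NumberField K]

/-- a principal ideal which is a power -/
theorem ideal_root {α β γ : 𝓞 K} {m : ℕ} (h : IsCoprime α β) (he : α * β = γ ^ m) :
    ∃ I : Ideal (𝓞 K), Ideal.span {α} = I ^ m := by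
  have h1 : IsCoprime (Ideal.span {α} : Ideal (𝓞 K)) (Ideal.span {β}) := by
    rw [Ideal.isCoprime_span_singleton_iff]
    exact h
  have h2 : (Ideal.span {α} : Ideal (𝓞 K)) * Ideal.span {β} = (Ideal.span {γ}) ^ m := by
    rw [Ideal.span_singleton_mul_span_singleton, he, Ideal.span_singleton_pow]
  exact exists_eq_pow_of_mul_eq_pow_of_coprime h1 h2

/-- the order of the class of the root -/
theorem order_eq (h2 : Module.finrank ℚ K = 2) (hd : discr K < 0) {α β : 𝓞 K} {n : ℤ} {M m : ℕ} (hM : 2 ≤ M)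
    (hm : 1 ≤ m) (hcop : IsCoprime n (M : ℤ)) (hs : α + β = (n : 𝓞 K)) (hp : α * β = (M : 𝓞 K) ^ m)
    (hn : Algebra.norm ℤ α = (M : ℤ) ^ m)
    (hk : ∀ k : ℕ, k ∣ m → k < m → 4 * (M : ℤ) ^ k < |discr K|) :
    ∃ I : nonZeroDivisors (Ideal (𝓞 K)), Ideal.absNorm (I : Ideal (𝓞 K)) = M ∧ orderOf (ClassGroup.mk0 I) = m := by
  have hc : IsCoprime α β := by
    obtain ⟨u, v, huv⟩ := hcop.pow_right (n := m)
    refine ⟨(u : 𝓞 K) + v * β, u, ?_⟩
    have h1 : ((u * n + v * (M : ℤ) ^ m : ℤ) : 𝓞 K) = 1 := by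
      rw [huv]
      norm_num
    push_cast at h1
    rw [← hs, ← hp] at h1
    linear_combination h1
  obtain ⟨I, hI⟩ := ideal_root hc hp
  have hα0 : α ≠ 0 := by
    rintro rfl
    rw [Algebra.norm_zero] at hn
    have : (M : ℤ) ^ m ≠ 0 := by positivity
    exact this hn.symm
  have hI0 : I ≠ 0 := by
    rintro rfl
    rw [zero_pow (by omega), Ideal.zero_eq_bot, Ideal.span_singleton_eq_bot] at hI
    exact hα0 hI
  have hnI : Ideal.absNorm I = M := by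
    have h1 : Ideal.absNorm (Ideal.span {α}) = M ^ m := by
      rw [Ideal.absNorm_span_singleton, hn]
      exact_mod_cast Int.natAbs_natCast (M ^ m)
    rw [hI, map_pow] at h1
    exact Nat.pow_left_injective (by omega) h1
  refine ⟨⟨I, mem_nonZeroDivisors_iff_ne_zero.2 hI0⟩, hnI, ?_⟩
  have hpow : ClassGroup.mk0 (⟨I, mem_nonZeroDivisors_iff_ne_zero.2 hI0⟩ : nonZeroDivisors (Ideal (𝓞 K))) ^ m = 1 := by
    rw [← map_pow, ClassGroup.mk0_eq_one_iff]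
    change (I ^ m).IsPrincipal
    rw [← hI]
    exact ⟨α, rfl⟩
  obtain ⟨k, hk1⟩ : ∃ k, k = orderOf (ClassGroup.mk0 (⟨I, mem_nonZeroDivisors_iff_ne_zero.2 hI0⟩ :
    nonZeroDivisors (Ideal (𝓞 K)))) := ⟨_, rfl⟩
  have hdvd : k ∣ m := by
    rw [hk1]
    exact orderOf_dvd_of_pow_eq_one hpow
  rw [← hk1]
  by_contra hne
  have hlt : k < m := lt_of_le_of_ne (Nat.le_of_dvd hm hdvd) hne
  have hk2 : ClassGroup.mk0 (⟨I, mem_nonZeroDivisors_iff_ne_zero.2 hI0⟩ : nonZeroDivisors (Ideal (𝓞 K))) ^ k = 1 := by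
    rw [hk1]
    exact pow_orderOf_eq_one _
  rw [← map_pow, ClassGroup.mk0_eq_one_iff] at hk2
  obtain ⟨γ, hγ⟩ := hk2
  change I ^ k = Ideal.span {γ} at hγ
  have hnγ : (Algebra.norm ℤ γ).natAbs = M ^ k := by
    rw [← Ideal.absNorm_span_singleton, ← hγ, map_pow, hnI]
  have hnγ' : |Algebra.norm ℤ γ| = (M : ℤ) ^ k := by
    rw [Int.abs_eq_natAbs, hnγ]
    push_cast
    rfl
  obtain ⟨b, hb⟩ := int_of_small h2 hd (α := γ) (by
    rw [hnγ']
    exact hk k hdvd hlt)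
  obtain ⟨j, hj⟩ := hdvd
  have hαb : Ideal.span {α} = Ideal.span {((b ^ j : ℤ) : 𝓞 K)} := by
    rw [hI, hj, pow_mul, hγ, hb, Ideal.span_singleton_pow]
    push_cast
    rfl
  rw [Ideal.span_singleton_eq_span_singleton] at hαb
  obtain ⟨ε, hε⟩ := hαb
  -- the norm of the unit
  have hu : Algebra.norm ℤ (ε : 𝓞 K) = 1 ∨ Algebra.norm ℤ (ε : 𝓞 K) = -1 := by
    rw [← Int.isUnit_iff]
    exact (Units.isUnit ε).map (Algebra.norm ℤ)
  have hB : Algebra.norm ℤ (α * ε) = (b ^ j) ^ 2 := by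
    rw [hε]
    exact norm_int h2 (b ^ j)
  rw [map_mul, hn] at hB
  have hpos : 0 < (M : ℤ) ^ m := by positivity
  have hu1 : Algebra.norm ℤ (ε : 𝓞 K) = 1 := by
    rcases hu with h | h
    · exact h
    · rw [h] at hB
      nlinarith [sq_nonneg (b ^ j)]
  rw [hu1, mul_one] at hB
  have hβ : β = α * ε ^ 2 := by
    apply mul_left_cancel₀ hα0
    have h3 : (((M : ℤ) ^ m : ℤ) : 𝓞 K) = (((b ^ j) ^ 2 : ℤ) : 𝓞 K) := by rw [hB]
    push_cast at h3 hε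
    rw [hp, h3, ← hε]
    ring
  have hunit : IsUnit α := hc.isUnit_of_dvd' dvd_rfl ⟨_, hβ⟩
  have h4 : IsUnit (Algebra.norm ℤ α) := hunit.map (Algebra.norm ℤ)
  rw [hn, Int.isUnit_iff] at h4
  have h5 : (2 : ℤ) ^ 1 ≤ (M : ℤ) ^ m := by
    calc (2 : ℤ) ^ 1 ≤ (2 : ℤ) ^ m := pow_le_pow_right₀ (by norm_num) hm
      _ ≤ (M : ℤ) ^ m := pow_le_pow_left₀ (by norm_num) (by exact_mod_cast hM) m
  rcases h4 with h4 | h4 <;> omega

/-- the integer `(n + f √d) / 2` -/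
theorem exists_alpha (h2 : Module.finrank ℚ K = 2) {n f N : ℤ} (h : n ^ 2 - f ^ 2 * discr K = 4 * N) :
    ∃ α β : 𝓞 K, α + β = (n : 𝓞 K) ∧ α * β = (N : 𝓞 K) := by
  obtain ⟨x, t, m, hm, hx, _, _⟩ := exists_sqrt h2
  obtain ⟨θ, hθ⟩ : ∃ θ : K, θ = x / m := ⟨_, rfl⟩
  have hmK : (m : K) ≠ 0 := by exact_mod_cast hm
  have hθ2 : θ ^ 2 = (discr K : K) := by
    rw [hθ, div_pow, hx]
    push_cast
    field_simp
  have key : ∀ g : ℤ, g ^ 2 = f ^ 2 → IsIntegral ℤ (((n : K) + g * θ) / 2) := by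
    intro g hg
    refine ⟨Polynomial.X ^ 2 - Polynomial.C n * Polynomial.X + Polynomial.C N, ?_, ?_⟩
    · monicity!
    · rw [← Polynomial.aeval_def]
      simp only [map_add, map_sub, map_mul, map_pow, Polynomial.aeval_X, Polynomial.aeval_C]
      simp only [algebraMap_int_eq, eq_intCast]
      have h3 : ((n ^ 2 - f ^ 2 * discr K : ℤ) : K) = ((4 * N : ℤ) : K) := by rw [h]
      push_cast at h3
      have h4 : (g : K) ^ 2 = (f : K) ^ 2 := by exact_mod_cast hg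
      field_simp
      linear_combination (-1 : K) * h3 + (g : K) ^ 2 * hθ2 + (discr K : K) * h4
  obtain ⟨α, hα⟩ : ∃ α : 𝓞 K, (α : K) = ((n : K) + f * θ) / 2 := ⟨⟨_, key f rfl⟩, rfl⟩
  obtain ⟨β, hβ⟩ : ∃ β : 𝓞 K, (β : K) = ((n : K) + ((-f : ℤ) : K) * θ) / 2 := ⟨⟨_, key (-f) (by ring)⟩, rfl⟩
  refine ⟨α, β, ?_, ?_⟩
  · apply RingOfIntegers.ext
    change algebraMap (𝓞 K) K (α + β) = algebraMap (𝓞 K) K ((n : ℤ) : 𝓞 K)
    rw [map_add, map_intCast]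
    change (α : K) + (β : K) = _
    rw [hα, hβ]
    push_cast
    ring
  · apply RingOfIntegers.ext
    change algebraMap (𝓞 K) K (α * β) = algebraMap (𝓞 K) K ((N : ℤ) : 𝓞 K)
    rw [map_mul, map_intCast]
    change (α : K) * (β : K) = _
    rw [hα, hβ]
    have h3 : ((n ^ 2 - f ^ 2 * discr K : ℤ) : K) = ((4 * N : ℤ) : K) := by rw [h]
    push_cast at h3 ⊢
    field_simp
    linear_combination h3 - (f : K) ^ 2 * hθ2

/-- a class of order `m` in the imaginary quadratic fields with `n ^ 2 + f ^ 2 |d| = 4 M ^ m` -/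
theorem order_disc (h2 : Module.finrank ℚ K = 2) (hd : discr K < 0) {n f : ℤ} {M m : ℕ} (hM : 2 ≤ M)
    (hm : 1 ≤ m) (hf : f ≠ 0) (hcop : IsCoprime n (M : ℤ)) (h : n ^ 2 - f ^ 2 * discr K = 4 * (M : ℤ) ^ m)
    (hk : ∀ k : ℕ, k ∣ m → k < m → 4 * (M : ℤ) ^ k < |discr K|) :
    ∃ I : nonZeroDivisors (Ideal (𝓞 K)), Ideal.absNorm (I : Ideal (𝓞 K)) = M ∧ orderOf (ClassGroup.mk0 I) = m := by
  obtain ⟨α, β, hs, hp⟩ := exists_alpha (N := (M : ℤ) ^ m) h2 h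
  refine order_eq h2 hd hM hm hcop hs (by rw [hp]; push_cast; rfl) ?_ hk
  obtain ⟨h3, -⟩ := Pool.Agent.Y797.FK.quad_eq' h2 α
  obtain ⟨t, ht⟩ : ∃ t, t = Algebra.trace ℤ (𝓞 K) α := ⟨_, rfl⟩
  obtain ⟨N, hN⟩ : ∃ N, N = Algebra.norm ℤ α := ⟨_, rfl⟩
  rw [← ht, ← hN] at h3
  rw [← hN]
  have hneg : 0 < f ^ 2 * |discr K| := by
    have : 0 < f ^ 2 := by positivity
    have : 0 < |discr K| := by rw [abs_of_neg hd]; omega
    positivity
  rw [abs_of_neg hd] at hneg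
  have h4 : (2 * α - (n : 𝓞 K)) ^ 2 = ((n ^ 2 - 4 * (M : ℤ) ^ m : ℤ) : 𝓞 K) := by
    push_cast
    have e1 : β = (n : 𝓞 K) - α := by rw [← hs]; ring
    rw [e1] at hp
    push_cast at hp
    linear_combination (-4 : 𝓞 K) * hp
  have htn : t = n := by
    by_contra hne
    have h5 : ((4 * (n - t) : ℤ) : 𝓞 K) * α = ((4 * (M : ℤ) ^ m - 4 * N : ℤ) : 𝓞 K) := by
      push_cast at h3 h4 ⊢
      linear_combination h3 - h4
    have h6 := congrArg (fun z => (2 * (n - t) : 𝓞 K) * (2 * z - (4 * (n - t) * n : ℤ))) h5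
    have h7 : ((4 * (M : ℤ) ^ m - 4 * N : ℤ) * 2 - 4 * (n - t) * n) ^ 2 =
        (4 * (n - t)) ^ 2 * (n ^ 2 - 4 * (M : ℤ) ^ m) := by
      have h8 : (((4 * (M : ℤ) ^ m - 4 * N : ℤ) * 2 - 4 * (n - t) * n : ℤ) : 𝓞 K) =
          ((4 * (n - t) : ℤ) : 𝓞 K) * (2 * α - n) := by
        push_cast at h5 ⊢
        linear_combination (-2 : 𝓞 K) * h5
      have h9 : ((((4 * (M : ℤ) ^ m - 4 * N : ℤ) * 2 - 4 * (n - t) * n) ^ 2 : ℤ) : 𝓞 K) =
          (((4 * (n - t)) ^ 2 * (n ^ 2 - 4 * (M : ℤ) ^ m) : ℤ) : 𝓞 K) := by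
        rw [Int.cast_pow, h8, mul_pow, h4]
        push_cast
        ring
      exact_mod_cast h9
    have h8 : n ^ 2 - 4 * (M : ℤ) ^ m < 0 := by linarith
    have h9 : 0 < (4 * (n - t)) ^ 2 := by
      have : 4 * (n - t) ≠ 0 := by
        intro h0
        apply hne
        omega
      positivity
    nlinarith [sq_nonneg ((4 * (M : ℤ) ^ m - 4 * N : ℤ) * 2 - 4 * (n - t) * n)]
  rw [htn] at h3
  have h5 : ((n ^ 2 - 4 * N : ℤ) : 𝓞 K) = ((n ^ 2 - 4 * (M : ℤ) ^ m : ℤ) : 𝓞 K) := by rw [← h3, ← h4]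
  have h6 : n ^ 2 - 4 * N = n ^ 2 - 4 * (M : ℤ) ^ m := by exact_mod_cast h5
  omega

end Pool.Agent.X32.Cls
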