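import Pool.Agent.X32.Cls.Every
import Pool.Agent.X32.Uni.LinC

/-! Simultaneous torsion in the class groups of several imaginary quadratic fields. -/

set_option autoImplicit false

namespace Pool.Agent.X32.Cls

open Finset Filter NumberField Pool.Agent.X32.Uni

/-- every quadratic field containing a square root of `-D` has a discriminant with at most `t` prime factors and an
ideal of norm `M` whose class has the exact order `m` -/
def Tors (D M m t : ℕ) : Prop :=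
  ∀ (K : Type) [Field K] [NumberField K], Module.finrank ℚ K = 2 → (∃ s : K, s ^ 2 = -(D : K)) →
    (discr K).natAbs.primeFactorsList.length ≤ t ∧
    ∃ I : nonZeroDivisors (Ideal (𝓞 K)), Ideal.absNorm (I : Ideal (𝓞 K)) = M ∧ orderOf (ClassGroup.mk0 I) = m

theorem length_mul {a b : ℕ} (ha : a ≠ 0) (hb : b ≠ 0) :
    (a * b).primeFactorsList.length = a.primeFactorsList.length + b.primeFactorsList.length := by
  have h1 := (Nat.perm_primeFactorsList_mul ha hb).length_eq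
  rwa [List.length_append] at h1

theorem length_le_self (a : ℕ) : a.primeFactorsList.length ≤ a := by
  rcases Nat.eq_zero_or_pos a with h | h
  · simp [h]
  · have h1 : 2 ^ a.primeFactorsList.length ≤ a := by
      calc 2 ^ a.primeFactorsList.length ≤ a.primeFactorsList.prod :=
            List.pow_card_le_prod _ _ (fun q hq => (Nat.prime_of_mem_primeFactorsList hq).two_le)
        _ = a := Nat.prod_primeFactorsList (by omega)
    exact (Nat.lt_two_pow_self).le.trans h1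

/-- square factors of `γ s` -/
theorem sq_dvd_of {γ s f : ℕ} (hs : Squarefree s) (hc : Nat.Coprime γ s) (h : f ^ 2 ∣ γ * s) : f ^ 2 ∣ γ := by
  have h1 : Nat.Coprime f s := by
    rw [Nat.coprime_iff_gcd_eq_one]
    by_contra hne
    obtain ⟨q, hq, hqd⟩ := Nat.exists_prime_and_dvd hne
    have hqf := hqd.trans (Nat.gcd_dvd_left _ _)
    have hqs := hqd.trans (Nat.gcd_dvd_right _ _)
    have hqγ : ¬ q ∣ γ := fun h2 => hq.one_lt.ne' (Nat.dvd_one.1 (hc ▸ Nat.dvd_gcd h2 hqs))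
    have h3 : q ^ 2 ∣ γ * s := (pow_dvd_pow_of_dvd hqf 2).trans h
    have h4 : q ^ 2 ∣ s := (Nat.Coprime.pow_left 2 ((Nat.Prime.coprime_iff_not_dvd hq).2 hqγ)).dvd_of_dvd_mul_left h3
    rw [sq] at h4
    exact hq.one_lt.ne' (Nat.isUnit_iff.1 (hs q h4))
  exact (Nat.Coprime.pow_left 2 h1).dvd_of_dvd_mul_right h

theorem tors_of {g M p γ w t G : ℕ} (hg : 1 ≤ g) (hM : 2 ≤ M) (hp : p.Prime) (hMp : M < p)
    (hN : 2 * p ≤ 4 * M ^ g) (hG : 2 * G < p) (hγ1 : 1 ≤ γ) (hγ : γ ≤ G) (hw : 4 * M ^ g - p = γ * w)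
    (hsf : Squarefree w) (hl : w.primeFactorsList.length ≤ t) (hc : Nat.Coprime γ w) :
    Tors (p * (4 * M ^ g - p)) M (2 * g) (t + G + 1) := by
  have hp2 : p ≠ 2 := by omega
  have hodd : p % 2 = 1 := Nat.odd_iff.1 (hp.odd_of_ne_two hp2)
  have hndM : ¬ p ∣ M := fun h => by
    have := Nat.le_of_dvd (by omega) h
    omega
  have hnd : ¬ p ∣ 4 * M ^ g - p := by
    intro h
    have h3 : p ∣ 4 * M ^ g := by
      have := (Nat.dvd_add_right (dvd_refl p)).2 h
      rwa [Nat.add_sub_cancel' (by omega)] at this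
    rcases hp.dvd_mul.1 h3 with h4 | h4
    · have := Nat.le_of_dvd (by norm_num) h4
      interval_cases p <;> omega
    · exact hndM (hp.dvd_of_dvd_pow h4)
  intro K _ _ hK hs
  have hw0 : w ≠ 0 := hsf.ne_zero
  obtain ⟨W, hW⟩ : ∃ W, W = 4 * M ^ g - p := ⟨_, rfl⟩
  have hpW : p + W = 4 * M ^ g := by omega
  rw [← hW] at hs hnd hw
  have hpw : ¬ p ∣ w := fun h => hnd (by rw [hw]; exact h.mul_left _)
  have hpγ : ¬ p ∣ γ := fun h => by
    have := Nat.le_of_dvd (by omega) h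
    omega
  have hs1 : Squarefree (p * w) :=
    (Nat.squarefree_mul ((Nat.Prime.coprime_iff_not_dvd hp).2 hpw)).2 ⟨hp.squarefree, hsf⟩
  have hc1 : Nat.Coprime γ (p * w) :=
    Nat.Coprime.mul_right ((Nat.coprime_comm).1 ((Nat.Prime.coprime_iff_not_dvd hp).2 hpγ)) hc
  have hD : p * W = γ * (p * w) := by rw [hw]; ring
  obtain ⟨n, f, hnf, hnsf⟩ := Nat.sq_mul_squarefree (p * W)
  have hW0 : 0 < W := by
    rw [hw]
    exact Nat.mul_pos (by omega) (Nat.pos_of_ne_zero hw0)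
  have hD0 : 0 < p * W := Nat.mul_pos hp.pos hW0
  have hf0 : f ≠ 0 := by
    rintro rfl
    rw [zero_pow two_ne_zero, zero_mul] at hnf
    omega
  have hn0 : n ≠ 0 := hnsf.ne_zero
  have hf2 : f ^ 2 ∣ γ := sq_dvd_of hs1 hc1 ⟨n, by rw [← hD, hnf]⟩
  have hfG : f ^ 2 ≤ G := (Nat.le_of_dvd (by omega) hf2).trans hγ
  have hmod : (p * W) % 4 = 3 := by
    have h4 : (p + W) % 4 = 0 := by rw [hpW]; omega
    have h5 : p % 4 = 1 ∧ W % 4 = 3 ∨ p % 4 = 3 ∧ W % 4 = 1 := by omega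
    rw [Nat.mul_mod]
    rcases h5 with ⟨h5, h6⟩ | ⟨h5, h6⟩ <;> rw [h5, h6]
  have hn4 : n % 4 = 3 := by
    have h5 : (f ^ 2 * n) % 4 = 3 := by rw [hnf]; exact hmod
    have h6 : f % 2 = 1 := by
      by_contra h7
      have h8 : 2 ∣ f := by omega
      obtain ⟨f', rfl⟩ := h8
      have : (2 * f') ^ 2 * n = 4 * (f' ^ 2 * n) := by ring
      rw [this] at h5
      omega
    have h7 : f ^ 2 % 4 = 1 := by
      have : f % 4 = 1 ∨ f % 4 = 3 := by omega
      rw [Nat.pow_mod]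
      rcases this with h | h <;> rw [h]
    rw [Nat.mul_mod, h7, one_mul, Nat.mod_mod] at h5
    exact h5
  obtain ⟨s, hs⟩ := hs
  have hfK : (f : K) ≠ 0 := by exact_mod_cast hf0
  have hdisc : discr K = -(n : ℤ) := by
    have h5 := Pool.Agent.Y797.FK.t_DISC.1 K hK n hnsf ⟨s / f, by
      rw [div_pow, hs, ← hnf]
      push_cast
      field_simp⟩
    rw [h5, if_pos hn4]
  have hDn : p * W ≤ G * n := by
    rw [← hnf]
    exact Nat.mul_le_mul_right _ hfG
  refine ⟨?_, ?_⟩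
  · rw [hdisc, Int.natAbs_neg, Int.natAbs_natCast]
    have h5 : (p * W).primeFactorsList.length ≤ t + G + 1 := by
      rw [hD, length_mul (by omega) (by have := hp.pos; positivity), length_mul hp.ne_zero hw0,
        Nat.primeFactorsList_prime hp, List.length_singleton]
      have := length_le_self γ
      omega
    rw [← hnf, length_mul (by positivity) hn0] at h5
    omega
  · have hnpos : (0 : ℤ) < n := by exact_mod_cast Nat.pos_of_ne_zero hn0
    refine order_disc hK (by rw [hdisc]; omega) (n := (p : ℤ) - 2 * (M : ℤ) ^ g) (f := (f : ℤ)) hM (by omega)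
      (by exact_mod_cast hf0) ?_ ?_ ?_
    · have h3 : IsCoprime (p : ℤ) (M : ℤ) := by
        rw [Nat.isCoprime_iff_coprime]
        exact (Nat.Prime.coprime_iff_not_dvd hp).2 hndM
      obtain ⟨g', rfl⟩ : ∃ g', g = g' + 1 := ⟨g - 1, by omega⟩
      have e : (p : ℤ) - 2 * (M : ℤ) ^ (g' + 1) = p + M * (-(2 * (M : ℤ) ^ g')) := by ring
      rw [e]
      exact h3.add_mul_left_left _
    · rw [hdisc]
      have e : (W : ℤ) = 4 * (M : ℤ) ^ g - p := by
        have : ((p + W : ℕ) : ℤ) = ((4 * M ^ g : ℕ) : ℤ) := by rw [hpW]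
        push_cast at this
        linarith
      have e2 : (f : ℤ) ^ 2 * n = p * W := by exact_mod_cast hnf
      have e3 : ((p : ℤ) - 2 * (M : ℤ) ^ g) ^ 2 - (f : ℤ) ^ 2 * -(n : ℤ) =
          ((p : ℤ) - 2 * (M : ℤ) ^ g) ^ 2 + (f : ℤ) ^ 2 * n := by ring
      rw [e3, e2, e]
      ring
    · intro k hk hlt
      rw [hdisc, abs_neg, abs_of_pos hnpos]
      have hkg : k ≤ g := by
        obtain ⟨j, hj⟩ := hk
        have hj2 : 2 ≤ j := by
          by_contra hcon
          have : j = 0 ∨ j = 1 := by omega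
          rcases this with rfl | rfl <;> omega
        nlinarith
      have h5 : M ^ k ≤ M ^ g := Nat.pow_le_pow_right (by omega) hkg
      have h6 : 4 * M ^ k < n := by
        by_contra hcon
        have h7 : n ≤ 4 * M ^ g := by omega
        have hWp : 2 * M ^ g ≤ W := by omega
        have h8 : p * W ≤ G * (4 * M ^ g) := hDn.trans (Nat.mul_le_mul_left _ h7)
        have h9 : (2 * G + 1) * (2 * M ^ g) ≤ p * W := Nat.mul_le_mul hG hWp
        have h10 : 0 < M ^ g := by positivity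
        nlinarith
      exact_mod_cast h6

open Classical in
/-- the exceptional arguments -/
theorem bad_count (N X k : ℕ) (hk : 1 ≤ k) (hX : 2 * X ≤ N) (hX1 : 1 ≤ X) : (((Ioc (X / 2) X).filter (fun p =>
    ∃ q : ℕ, k < q ∧ q ^ 2 ∣ N - p)).card : ℝ) ≤ (X : ℝ) / k + 2 * Real.sqrt N := by
  obtain ⟨R, hR⟩ : ∃ R, R = Nat.sqrt N := ⟨_, rfl⟩
  have h1 : (Ioc (X / 2) X).filter (fun p => ∃ q : ℕ, k < q ∧ q ^ 2 ∣ N - p) ⊆
      (Ioc k R).biUnion fun q => (Icc ((N - X) / q ^ 2) ((N - X / 2) / q ^ 2)).image (fun j => N - q ^ 2 * j) := by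
    intro p hp
    rw [mem_filter, mem_Ioc] at hp
    obtain ⟨⟨hp1, hp2⟩, q, hkq, j, hj⟩ := hp
    have hq0 : 0 < q ^ 2 := pow_pos (by omega) 2
    rw [mem_biUnion]
    refine ⟨q, ?_, ?_⟩
    · rw [mem_Ioc]
      refine ⟨hkq, ?_⟩
      rw [hR, Nat.le_sqrt']
      have h2 : 0 < j := by
        rcases Nat.eq_zero_or_pos j with h | h
        · rw [h, mul_zero] at hj
          omega
        · exact h
      calc q ^ 2 ≤ q ^ 2 * j := Nat.le_mul_of_pos_right _ h2
        _ ≤ N := by omega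
    · rw [mem_image]
      refine ⟨j, ?_, by omega⟩
      rw [mem_Icc]
      constructor
      · apply Nat.div_le_of_le_mul
        omega
      · rw [Nat.le_div_iff_mul_le hq0]
        have : j * q ^ 2 = q ^ 2 * j := by ring
        omega
  have h2 : ∀ q ∈ Ioc k R, (((Icc ((N - X) / q ^ 2) ((N - X / 2) / q ^ 2)).image (fun j => N - q ^ 2 * j)).card : ℝ) ≤
      (X : ℝ) * (((q : ℝ) ^ 2)⁻¹) + 2 := by
    intro q hq
    rw [mem_Ioc] at hq
    have hq0 : 0 < q ^ 2 := by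
      have : 0 < q := by omega
      positivity
    have hqR : (0 : ℝ) < (q : ℝ) ^ 2 := by exact_mod_cast hq0
    have h3 : (((Icc ((N - X) / q ^ 2) ((N - X / 2) / q ^ 2)).image (fun j => N - q ^ 2 * j)).card : ℝ) ≤
        (((N - X / 2) / q ^ 2 + 1 - (N - X) / q ^ 2 : ℕ) : ℝ) := by
      rw [← Nat.card_Icc]
      exact_mod_cast card_image_le
    refine h3.trans ?_
    have h4 : (N - X) / q ^ 2 ≤ (N - X / 2) / q ^ 2 := Nat.div_le_div_right (by omega)
    have h5 : q ^ 2 * ((N - X / 2) / q ^ 2) ≤ N - X / 2 := Nat.mul_div_le _ _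
    have h6 : N - X < q ^ 2 * ((N - X) / q ^ 2 + 1) := by
      have := Nat.lt_mul_div_succ (N - X) hq0
      exact this
    obtain ⟨a, ha⟩ : ∃ a, a = (N - X) / q ^ 2 := ⟨_, rfl⟩
    obtain ⟨b, hb⟩ : ∃ b, b = (N - X / 2) / q ^ 2 := ⟨_, rfl⟩
    rw [← ha] at h4 h6 ⊢
    rw [← hb] at h4 h5 ⊢
    have h7 : q ^ 2 * b + X / 2 ≤ N := by omega
    have h8 : N < q ^ 2 * (a + 1) + X := by omega
    have h9 : q ^ 2 * b + X / 2 < q ^ 2 * (a + 1) + X := by omega
    have h10 : q ^ 2 * b ≤ q ^ 2 * (a + 1) + X := by omega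
    have h11 : (q : ℝ) ^ 2 * b ≤ (q : ℝ) ^ 2 * (a + 1) + X := by exact_mod_cast h10
    have h12 : (b : ℝ) ≤ a + 1 + X * ((q : ℝ) ^ 2)⁻¹ := by
      obtain ⟨Q, hQ⟩ : ∃ Q : ℝ, Q = (q : ℝ) ^ 2 := ⟨_, rfl⟩
      rw [← hQ] at hqR h11 ⊢
      have h13 : (b : ℝ) = (Q * b) * Q⁻¹ := by field_simp
      have h14 : (a + 1 : ℝ) + X * Q⁻¹ = (Q * (a + 1) + X) * Q⁻¹ := by
        field_simp
      rw [h13, h14]
      exact mul_le_mul_of_nonneg_right h11 (by positivity)
    rw [Nat.cast_sub (by omega)]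
    push_cast
    linarith
  have h3 : (((Ioc (X / 2) X).filter (fun p => ∃ q : ℕ, k < q ∧ q ^ 2 ∣ N - p)).card : ℝ) ≤
      ∑ q ∈ Ioc k R, ((X : ℝ) * (((q : ℝ) ^ 2)⁻¹) + 2) := by
    calc (((Ioc (X / 2) X).filter (fun p => ∃ q : ℕ, k < q ∧ q ^ 2 ∣ N - p)).card : ℝ)
        ≤ (((Ioc k R).biUnion fun q =>
            (Icc ((N - X) / q ^ 2) ((N - X / 2) / q ^ 2)).image (fun j => N - q ^ 2 * j)).card : ℝ) := by
          exact_mod_cast card_le_card h1
      _ ≤ ∑ q ∈ Ioc k R, (((Icc ((N - X) / q ^ 2) ((N - X / 2) / q ^ 2)).image (fun j => N - q ^ 2 * j)).card : ℝ) := by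
          exact_mod_cast card_biUnion_le
      _ ≤ _ := sum_le_sum h2
  refine h3.trans ?_
  rw [sum_add_distrib, ← mul_sum, sum_const, Nat.card_Ioc, nsmul_eq_mul]
  have hRs : ((R - k : ℕ) : ℝ) ≤ Real.sqrt N := by
    calc ((R - k : ℕ) : ℝ) ≤ (R : ℝ) := by exact_mod_cast Nat.sub_le _ _
      _ ≤ Real.sqrt N := by rw [hR]; exact Real.nat_sqrt_le_real_sqrt
  have hsum : ∑ q ∈ Ioc k R, (((q : ℝ) ^ 2)⁻¹) ≤ (k : ℝ)⁻¹ := by
    rcases le_or_gt k R with hkR | hkR
    · have := sum_Ioc_inv_sq_le_sub (α := ℝ) (by omega : k ≠ 0) hkR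
      have h4 : (0 : ℝ) ≤ (R : ℝ)⁻¹ := by positivity
      linarith
    · rw [Ioc_eq_empty_of_le hkR.le, sum_empty]
      positivity
  have h4 : (X : ℝ) * ∑ q ∈ Ioc k R, (((q : ℝ) ^ 2)⁻¹) ≤ X * (k : ℝ)⁻¹ :=
    mul_le_mul_of_nonneg_left hsum (by positivity)
  rw [div_eq_mul_inv]
  linarith

theorem log_small (m : ℕ) {a c : ℝ} (ha : 0 < a) (hc : 0 < c) :
    ∀ᶠ X : ℕ in atTop, Real.log X ^ m ≤ c * (X : ℝ) ^ a := by
  have h1 := isLittleO_log_rpow_rpow_atTop (m : ℝ) ha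
  have h2 := (h1.def hc)
  have h3 := tendsto_natCast_atTop_atTop (R := ℝ) |>.eventually h2
  filter_upwards [h3, eventually_ge_atTop 1] with X h3 hX
  have hX1 : (1 : ℝ) ≤ X := by exact_mod_cast hX
  have hlog : 0 ≤ Real.log X := Real.log_nonneg hX1
  rw [Real.rpow_natCast, Real.norm_of_nonneg (by positivity), Real.norm_of_nonneg (by positivity)] at h3
  exact h3

theorem simul (h : ℕ) : ∃ t : ℕ, ∃ κ : ℝ, 0 < κ ∧ ∀ K : ℕ, ∃ X₀ : ℕ, ∀ X : ℕ, X₀ ≤ X → ∀ M g : Fin (h + 1) → ℕ,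
    (∀ i, 2 ≤ g i ∧ X ≤ M i ^ g i ∧ (M i ^ g i) ^ 2 ≤ X ^ 3) → M 0 ^ g 0 ≤ K * X → ∃ S : Finset ℕ,
      κ * X / Real.log X ^ (h + 2) ≤ (S.card : ℝ) ∧ ∀ p ∈ S, p.Prime ∧ X < 2 * p ∧ p ≤ X ∧
        (4 * M 0 ^ g 0 - p).primeFactorsList.length ≤ 2 ∧
        ∀ i, Tors (p * (4 * M i ^ g i - p)) (M i) (2 * g i) t := by
  classical
  obtain ⟨z, G, t, hG1, ht, κ, hκ, H⟩ := uncCQ h 1 2 le_rfl
  refine ⟨t + G + 1, κ ^ 2 / 4, by positivity, fun K => ?_⟩
  obtain ⟨c, X₀, hH⟩ := H (4 * K) 1 1 (1 / 2) 1 le_rfl (by norm_num) one_pos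
  have htR : (0 : ℝ) < 1 / (t : ℝ) := by
    have : (1 : ℝ) ≤ t := by exact_mod_cast ht
    positivity
  have hh : (0 : ℝ) < h + 1 := by positivity
  have ev1 : ∀ᶠ X : ℕ in atTop, (z : ℝ) + 1 ≤ (X : ℝ) ^ (1 / (t : ℝ)) :=
    ((tendsto_rpow_atTop htR).comp tendsto_natCast_atTop_atTop).eventually_ge_atTop _
  have ev2 := log_small (h + 2) (a := 1 / (t : ℝ)) (c := κ ^ 2 / (16 * (h + 1))) htR (by positivity)
  have ev3 := log_small (h + 2) (a := 1 / 4) (c := κ ^ 2 / (32 * (h + 1))) (by norm_num) (by positivity)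
  obtain ⟨X₁, hX₁⟩ := eventually_atTop.1 ((ev1.and ev2).and ev3)
  refine ⟨max (max X₀ X₁) (16 + 4 * G), fun X hX M g hMg hM0 => ?_⟩
  have hX0 : X₀ ≤ X := by omega
  have hX16 : 16 + 4 * G ≤ X := by omega
  obtain ⟨⟨e1, e2⟩, e3⟩ := hX₁ X (by omega)
  have hXR : (16 : ℝ) ≤ X := by exact_mod_cast (by omega : 16 ≤ X)
  have hXz : (16 : ℤ) ≤ X := by exact_mod_cast (by omega : 16 ≤ X)
  obtain ⟨N, hN⟩ : ∃ N : Fin (h + 1) → ℕ, N = fun i => 4 * M i ^ g i := ⟨_, rfl⟩
  have hNi : ∀ i, N i = 4 * M i ^ g i := fun i => by rw [hN]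
  have hNX : ∀ i, 4 * X ≤ N i := fun i => by
    rw [hNi]
    have := (hMg i).2.1
    omega
  have hNX2 : ∀ i, N i ≤ X ^ 2 := fun i => by
    have h1 : (N i) ^ 2 ≤ (X ^ 2) ^ 2 := by
      rw [hNi]
      calc (4 * M i ^ g i) ^ 2 = 16 * (M i ^ g i) ^ 2 := by ring
        _ ≤ 16 * X ^ 3 := Nat.mul_le_mul_left _ (hMg i).2.2
        _ ≤ X * X ^ 3 := Nat.mul_le_mul_right _ (by omega)
        _ = (X ^ 2) ^ 2 := by ring
    exact (Nat.pow_le_pow_iff_left two_ne_zero).1 h1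
  obtain ⟨u, hu⟩ : ∃ u : Polynomial ℤ, u = lp 1 0 := ⟨_, rfl⟩
  obtain ⟨v, hv⟩ : ∃ v : Polynomial ℤ, v = lp (-1) (N 0) := ⟨_, rfl⟩
  obtain ⟨Q, hQ⟩ : ∃ Q : Finset (Polynomial ℤ), Q = (univ : Finset (Fin h)).image (fun i => lp (-1) (N i.succ)) := ⟨_, rfl⟩
  have hue : ∀ x : ℤ, u.eval x = x := fun x => by rw [hu, lp_eval]; ring
  have hve : ∀ x : ℤ, v.eval x = (N 0 : ℤ) - x := fun x => by rw [hv, lp_eval]; ring
  have hdegQ : ∀ f ∈ Q, f.natDegree = 1 := by
    intro f hf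
    rw [hQ, mem_image] at hf
    obtain ⟨i, _, rfl⟩ := hf
    exact lp_deg (by norm_num)
  have hsys : SysQc h 1 2 (4 * K) X u v Q ∅ :=
    { TQ := empty_subset _
      du := by rw [hu]; exact lp_deg one_ne_zero
      dv := by rw [hv]; exact lp_deg (by norm_num)
      u1 := by rw [hu, lp_coeff]; norm_num
      v1 := by rw [hv, lp_coeff]; norm_num
      u0 := by rw [hu, lp_coeff, if_pos rfl, abs_zero]; positivity
      v0 := by
        rw [hv, lp_coeff, if_pos rfl, abs_of_nonneg (by positivity), hNi]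
        have : 4 * M 0 ^ g 0 ≤ 4 * K * X := by nlinarith
        exact_mod_cast this
      det := by
        rw [hu, hv]
        simp only [lp_coeff]
        norm_num
        have := hNX 0
        omega
      deg := fun f hf => (hdegQ f hf).ge
      sum := by
        rw [sum_congr rfl hdegQ, sum_const, smul_eq_mul, mul_one, hQ]
        exact card_image_le.trans (by rw [card_univ, Fintype.card_fin])
      cont := by
        intro f hf
        rw [hQ, mem_image] at hf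
        obtain ⟨i, _, rfl⟩ := hf
        exact lp_contB_a (by norm_num) (by norm_num)
      size := by
        intro f hf n
        rw [hQ, mem_image] at hf
        obtain ⟨i, _, rfl⟩ := hf
        apply lp_size (by positivity)
        · rw [abs_neg, abs_one]
          nlinarith
        · rw [abs_of_nonneg (by positivity)]
          exact_mod_cast hNX2 _
      loc := by
        intro p hp
        obtain ⟨x, hx⟩ := admG_even (N 0) (by rw [hNi]; exact ⟨2 * M 0 ^ g 0, by ring⟩) p hp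
        refine ⟨x, ?_⟩
        rw [hue, hve]
        simpa using hx }
  obtain ⟨h1, h2⟩ := hH X hX0 u v Q ∅ hsys
  obtain ⟨h3, -⟩ := h2 (X / 2) X le_rfl (by
    have : ((X / 2 : ℕ) : ℝ) ≤ X / 2 := Nat.cast_div_le
    linarith)
  obtain ⟨S, hS⟩ : ∃ S, S = GQc u v Q ∅ z G t X (X / 2) X := ⟨_, rfl⟩
  rw [← hS] at h3
  obtain ⟨y, hy⟩ : ∃ y : ℝ, y = (X : ℝ) ^ (1 / (t : ℝ)) := ⟨_, rfl⟩
  rw [← hy] at e1 e2
  obtain ⟨k, hk⟩ : ∃ k : ℕ, k = ⌊y⌋₊ := ⟨_, rfl⟩
  have hz0 : (0 : ℝ) ≤ z := by positivity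
  have hy1 : 1 ≤ y := by linarith
  have hk1 : 1 ≤ k := by rw [hk]; exact Nat.le_floor (by simpa using hy1)
  have hky : (k : ℝ) ≤ y := by rw [hk]; exact Nat.floor_le (by linarith)
  have hky2 : y / 2 ≤ k := by
    have h4 := Nat.lt_floor_add_one y
    rw [← hk] at h4
    have h5 : (1 : ℝ) ≤ k := by exact_mod_cast hk1
    linarith
  have hMp : ∀ i, ∀ p : ℕ, X < 2 * p → M i < p := by
    intro i p hp
    obtain ⟨g2, hXM, hM3⟩ := hMg i
    have h4 : M i ^ 2 ≤ M i ^ g i := by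
      rcases Nat.eq_zero_or_pos (M i) with h0 | h0
      · rw [h0, zero_pow (by omega : g i ≠ 0)] at hXM
        omega
      · exact Nat.pow_le_pow_right h0 g2
    have h5 : (2 * M i) ^ 4 ≤ X ^ 4 := by
      calc (2 * M i) ^ 4 = 16 * (M i ^ 2) ^ 2 := by ring
        _ ≤ 16 * (M i ^ g i) ^ 2 := Nat.mul_le_mul_left _ (Nat.pow_le_pow_left h4 2)
        _ ≤ 16 * X ^ 3 := Nat.mul_le_mul_left _ hM3
        _ ≤ X * X ^ 3 := Nat.mul_le_mul_right _ (by omega)
        _ = X ^ 4 := by ring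
    have h6 := (Nat.pow_le_pow_iff_left (by norm_num : 4 ≠ 0)).1 h5
    omega
  obtain ⟨P, hP⟩ : ∃ P : ℕ → Prop, P = fun p => ∃ i, ∃ q : ℕ, k < q ∧ q ^ 2 ∣ N i - p := ⟨_, rfl⟩
  refine ⟨S.filter (fun p => ¬ P p), ?_, ?_⟩
  · have hbad : ((S.filter P).card : ℝ) ≤ (h + 1) * (2 * X / y + 4 * (X : ℝ) ^ (3 / 4 : ℝ)) := by
      have hsub : S.filter P ⊆ (univ : Finset (Fin (h + 1))).biUnion fun i => (Ioc (X / 2) X).filter (fun p =>
          ∃ q : ℕ, k < q ∧ q ^ 2 ∣ N i - p) := by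
        intro p hp
        rw [mem_filter, hS, hP] at hp
        obtain ⟨hp1, i, hp2⟩ := hp
        rw [mem_biUnion]
        refine ⟨i, mem_univ _, ?_⟩
        rw [mem_filter]
        unfold GQc at hp1
        exact ⟨(mem_filter.1 hp1).1, hp2⟩
      calc ((S.filter P).card : ℝ) ≤ (((univ : Finset (Fin (h + 1))).biUnion fun i => (Ioc (X / 2) X).filter (fun p =>
          ∃ q : ℕ, k < q ∧ q ^ 2 ∣ N i - p)).card : ℝ) := by exact_mod_cast card_le_card hsub
        _ ≤ ∑ i : Fin (h + 1), (((Ioc (X / 2) X).filter (fun p => ∃ q : ℕ, k < q ∧ q ^ 2 ∣ N i - p)).card : ℝ) := by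
            exact_mod_cast card_biUnion_le
        _ ≤ ∑ i : Fin (h + 1), (2 * X / y + 4 * (X : ℝ) ^ (3 / 4 : ℝ)) := by
            apply sum_le_sum
            intro i _
            refine (bad_count (N i) X k hk1 (by have := hNX i; omega) (by omega)).trans ?_
            have h4 : (X : ℝ) / k ≤ 2 * X / y := by
              rw [div_le_div_iff₀ (by exact_mod_cast hk1) (by linarith)]
              nlinarith
            have h5 : Real.sqrt (N i) ≤ 2 * (X : ℝ) ^ (3 / 4 : ℝ) := by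
              apply Real.sqrt_le_iff.2
              refine ⟨by positivity, ?_⟩
              have h6 : (2 * (X : ℝ) ^ (3 / 4 : ℝ)) ^ 2 = 4 * (X : ℝ) ^ (3 / 2 : ℝ) := by
                rw [mul_pow, ← Real.rpow_natCast ((X : ℝ) ^ (3 / 4 : ℝ)), ← Real.rpow_mul (by linarith)]
                norm_num
              rw [h6, hNi]
              push_cast
              have h7 : ((M i : ℝ) ^ g i) ≤ (X : ℝ) ^ (3 / 2 : ℝ) := by
                have h8 : ((M i : ℝ) ^ g i) ^ 2 ≤ ((X : ℝ) ^ (3 / 2 : ℝ)) ^ 2 := by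
                  rw [← Real.rpow_natCast ((X : ℝ) ^ (3 / 2 : ℝ)), ← Real.rpow_mul (by linarith)]
                  have h9 : (X : ℝ) ^ ((3 / 2 : ℝ) * ((2 : ℕ) : ℝ)) = (X : ℝ) ^ 3 := by
                    rw [← Real.rpow_natCast]
                    norm_num
                  rw [h9]
                  exact_mod_cast (hMg i).2.2
                exact (pow_le_pow_iff_left₀ (by positivity) (by positivity) two_ne_zero).1 h8
              linarith
            linarith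
        _ = _ := by
            rw [sum_const, card_univ, Fintype.card_fin, nsmul_eq_mul]
            push_cast
            ring
    have hlogX : 0 < Real.log X := Real.log_pos (by linarith)
    have hL : 0 < Real.log X ^ (h + 2) := by positivity
    have hmain : κ ^ 2 / 2 * (X / Real.log X ^ (h + 2)) ≤ S.card := by
      refine le_trans ?_ h3
      have h5 : (X : ℝ) / 2 ≤ (X : ℝ) - ((X / 2 : ℕ) : ℝ) := by
        have : ((X / 2 : ℕ) : ℝ) ≤ X / 2 := Nat.cast_div_le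
        linarith
      calc κ ^ 2 / 2 * (X / Real.log X ^ (h + 2)) = κ * (X / 2) * (κ / Real.log X ^ (h + 2)) := by ring
        _ ≤ κ * ((X : ℝ) - ((X / 2 : ℕ) : ℝ)) * VQ u v Q z X := by
            apply mul_le_mul (mul_le_mul_of_nonneg_left h5 hκ.le) h1 (by positivity)
            have : (0 : ℝ) ≤ (X : ℝ) - ((X / 2 : ℕ) : ℝ) := by linarith
            positivity
    have hb1 : (h + 1) * (2 * X / y) ≤ κ ^ 2 / 8 * (X / Real.log X ^ (h + 2)) := by
      have h5 : Real.log X ^ (h + 2) * (16 * (h + 1)) ≤ κ ^ 2 * y := by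
        have h6 := mul_le_mul_of_nonneg_right e2 (by positivity : (0 : ℝ) ≤ 16 * (h + 1))
        have h7 : κ ^ 2 / (16 * (h + 1)) * y * (16 * (h + 1)) = κ ^ 2 * y := by field_simp
        linarith
      have hy0 : 0 < y := by linarith
      rw [mul_div_assoc', div_le_iff₀ hy0]
      have h8 : κ ^ 2 / 8 * (X / Real.log X ^ (h + 2)) * y = (κ ^ 2 * y) * X / (8 * Real.log X ^ (h + 2)) := by
        field_simp
      rw [h8, le_div_iff₀ (by positivity)]
      have h9 := mul_le_mul_of_nonneg_right h5 (by positivity : (0 : ℝ) ≤ X)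
      linarith
    have hb2 : (h + 1) * (4 * (X : ℝ) ^ (3 / 4 : ℝ)) ≤ κ ^ 2 / 8 * (X / Real.log X ^ (h + 2)) := by
      have e4 : (X : ℝ) = (X : ℝ) ^ (3 / 4 : ℝ) * (X : ℝ) ^ (1 / 4 : ℝ) := by
        rw [← Real.rpow_add (by linarith)]
        norm_num
      have h5 : Real.log X ^ (h + 2) * (32 * (h + 1)) ≤ κ ^ 2 * (X : ℝ) ^ (1 / 4 : ℝ) := by
        have h6 := mul_le_mul_of_nonneg_right e3 (by positivity : (0 : ℝ) ≤ 32 * (h + 1))
        have h7 : κ ^ 2 / (32 * (h + 1)) * (X : ℝ) ^ (1 / 4 : ℝ) * (32 * (h + 1)) = κ ^ 2 * (X : ℝ) ^ (1 / 4 : ℝ) := by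
          field_simp
        linarith
      have h8 : κ ^ 2 / 8 * (X / Real.log X ^ (h + 2)) = κ ^ 2 * X / (8 * Real.log X ^ (h + 2)) := by
        field_simp
      rw [h8, le_div_iff₀ (by positivity)]
      have h9 := mul_le_mul_of_nonneg_right h5 (by positivity : (0 : ℝ) ≤ (X : ℝ) ^ (3 / 4 : ℝ))
      have h10 : κ ^ 2 * (X : ℝ) = κ ^ 2 * (X : ℝ) ^ (1 / 4 : ℝ) * (X : ℝ) ^ (3 / 4 : ℝ) := by
        rw [mul_assoc, mul_comm ((X : ℝ) ^ (1 / 4 : ℝ)), ← e4]
      linarith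
    have hsum := card_filter_add_card_filter_not (s := S) P
    have h8 : ((S.filter P).card : ℝ) + ((S.filter (fun p => ¬ P p)).card : ℝ) = S.card := by exact_mod_cast hsum
    have e5 : κ ^ 2 / 4 * X / Real.log X ^ (h + 2) = κ ^ 2 / 4 * (X / Real.log X ^ (h + 2)) := by ring
    rw [e5]
    have e6 : (h + 1) * (2 * X / y + 4 * (X : ℝ) ^ (3 / 4 : ℝ)) =
      (h + 1) * (2 * X / y) + (h + 1) * (4 * (X : ℝ) ^ (3 / 4 : ℝ)) := by ring
    rw [e6] at hbad
    linarith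
  · intro p hp
    rw [mem_filter] at hp
    obtain ⟨hp1, hp2⟩ := hp
    rw [hS] at hp1
    unfold GQc at hp1
    rw [mem_filter, mem_Ioc, hue, hve, Int.natAbs_natCast] at hp1
    obtain ⟨⟨hp3, hp4⟩, hp5, hp6, hp7, hp8, hp9, hp10⟩ := hp1
    have hXp : X < 2 * p := by omega
    have e0 : ((N 0 : ℕ) : ℤ) - p = ((N 0 - p : ℕ) : ℤ) := by
      have := hNX 0
      omega
    rw [e0] at hp7 hp8
    unfold Almost at hp7 hp8
    rw [Int.natAbs_natCast] at hp7 hp8
    have hnotP : ∀ i, ∀ q : ℕ, k < q → ¬ q ^ 2 ∣ N i - p := by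
      intro i q hq hd
      apply hp2
      rw [hP]
      exact ⟨i, q, hq, hd⟩
    have hkq : ∀ q : ℕ, y < q → k < q := fun q hq => by
      have : (k : ℝ) < q := lt_of_le_of_lt hky hq
      exact_mod_cast this
    refine ⟨hp5, hXp, hp4, by rw [← hNi]; exact hp7.2.1, fun i => ?_⟩
    obtain ⟨g2, hXM, hM3⟩ := hMg i
    have hM2 : 2 ≤ M i := by
      by_contra hcon
      have : M i = 0 ∨ M i = 1 := by omega
      rcases this with h0 | h0
      · rw [h0, zero_pow (by omega : g i ≠ 0)] at hXM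
        omega
      · rw [h0, one_pow] at hXM
        omega
    have key : ∃ γ w : ℕ, N i - p = γ * w ∧ 1 ≤ γ ∧ γ ≤ G ∧ (∀ r : ℕ, r.Prime → r ∣ γ → r ≤ z) ∧ w ≠ 0 ∧
        w.primeFactorsList.length ≤ t ∧ ∀ q : ℕ, q.Prime → q ∣ w → y < q := by
      by_cases hi : i = 0
      · rw [hi]
        refine ⟨1, N 0 - p, by ring, le_rfl, hG1, fun r hr hd => ?_, by have := hNX 0; omega, hp8.2.1, fun q hq hd => ?_⟩
        · exact absurd (Nat.dvd_one.1 hd) hr.one_lt.ne'
        · rw [hy]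
          exact hp8.2.2 q hq (by exact_mod_cast hd)
      · obtain ⟨j, hj⟩ := Fin.exists_succ_eq.2 hi
        obtain ⟨γ, w, a1, a2, a3, a4, a5⟩ := hp10 (lp (-1) (N i)) (by
          rw [hQ, mem_image]
          exact ⟨j, mem_univ _, by rw [hj]⟩)
        rw [lp_eval] at a1
        unfold Almost at a5
        have e1 : (-1 : ℤ) * (p : ℤ) + (N i : ℤ) = ((N i - p : ℕ) : ℤ) := by
          have := hNX i
          omega
        rw [e1] at a1
        refine ⟨γ, w.natAbs, ?_, a2, a3, a4, ?_, a5.2.1, fun q hq hd => ?_⟩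
        · have := congrArg Int.natAbs a1
          rwa [Int.natAbs_natCast, Int.natAbs_mul, Int.natAbs_natCast] at this
        · intro h0
          rw [Int.natAbs_eq_zero] at h0
          rw [h0] at a5
          norm_num at a5
        · rw [hy]
          exact a5.2.2 q hq (Int.natCast_dvd.2 hd)
    obtain ⟨γ, w, b1, b2, b3, b4, b5, b6, b7⟩ := key
    have hsf : Squarefree w := by
      rw [Nat.squarefree_iff_prime_squarefree]
      intro q hq hd
      apply hnotP i q (hkq q (b7 q hq ((dvd_mul_right _ _).trans hd)))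
      rw [b1, sq]
      exact hd.mul_left _
    have hcop : Nat.Coprime γ w := by
      rw [Nat.coprime_iff_gcd_eq_one]
      by_contra hne
      obtain ⟨q, hq, hqd⟩ := Nat.exists_prime_and_dvd hne
      have h11 := b4 q hq (hqd.trans (Nat.gcd_dvd_left _ _))
      have h12 := b7 q hq (hqd.trans (Nat.gcd_dvd_right _ _))
      have h13 : (q : ℝ) ≤ z := by exact_mod_cast h11
      linarith
    rw [hNi] at b1
    exact tors_of (by omega) hM2 hp5 (hMp i p hXp) (by omega) (by omega) b2 b3 b1 hsf b6 hcop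

end Pool.Agent.X32.Cls
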